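import Pool.Agent.H92.PX.Div
import Pool.Agent.H92.PX.Basx

/-!
# BA0: rank `t + 4` (`m = 0`): basic formulas (proved), used by all the other modules of this folder

`m = 0`: `k = a 4`, `v = a 5`, hyperplanes are the flats with `IsF 4`.  Notation in the comments: `l = a 2`,
`μ = a 3`, `s = μ - l`, `u = K 2`, `R = K 3`.
-/

open Set

namespace Pool.Agent.H92.PY

open Pool.Agent.H63 Pool.Agent.H63.PD Pool.Agent.H69.Pmd Pool.Agent.H92.PX

set_option linter.unusedSectionVars false

variable {α : Type*} [Fintype α] {C : PD α}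

theorem k_a4 (hm : C.m = 0) : C.k = C.a 4 := by rw [PD.k, hm]

theorem v_a5 (hm : C.m = 0) : C.v = C.a 5 := by rw [PD.v, hm]

theorem k_eq (hm : C.m = 0) : C.k = C.a 2 + (C.a 3 - C.a 2) * C.K 2 := by
  have h := K_mul (C := C) (i := 2) (by omega)
  norm_num at h
  rw [k_a4 hm]
  linarith

theorem v_eq (hm : C.m = 0) :
    C.v = C.a 2 + (C.a 3 - C.a 2) * (1 + C.K 3 * (C.K 2 - 1)) := by
  have h := K_mul (C := C) (i := 2) (by omega)
  have h' := K_mul (C := C) (i := 3) (by omega)
  norm_num at h h'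
  have e : C.a 4 - C.a 3 = (C.K 2 - 1) * (C.a 3 - C.a 2) := by linarith
  rw [v_a5 hm]
  rw [e] at h'
  linarith

theorem s_pos : 0 < C.a 3 - C.a 2 := by
  have := C.a_lt (show 2 < 3 by omega) (by omega)
  linarith

theorem u_ge : C.a 2 ≤ C.K 2 := by
  have h1 := K_mono (C := C) (show 0 ≤ 2 by omega) (by omega)
  rw [K_zero] at h1
  exact h1

theorem R_ge : C.K 2 ≤ C.K 3 := K_mono (by omega) (by omega)

theorem K1_le : C.K 1 ≤ C.K 2 := K_mono (by omega) (by omega)

theorem a_two_ge : 2 ≤ C.a 2 := by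
  have := C.a_succ_ge (i := 1) (by omega)
  norm_num at this
  rw [C.a_one] at this
  linarith

/-- `rho 2 = u / (1 + R (u - 1))` -/
theorem rho2_mul (hm : C.m = 0) : C.rho 2 * (1 + C.K 3 * (C.K 2 - 1)) = C.K 2 := by
  have h := rho_mul (C := C) (i := 2) (by omega)
  rw [k_eq hm, v_eq hm] at h
  have hs := s_pos (C := C)
  have h' : (C.a 3 - C.a 2) * (C.rho 2 * (1 + C.K 3 * (C.K 2 - 1))) =
      (C.a 3 - C.a 2) * C.K 2 := by linarith
  exact mul_left_cancel₀ hs.ne' h'

/-- `rho 3 = 1 / R` -/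
theorem rho3_mul (hm : C.m = 0) : C.rho 3 * C.K 3 = 1 := by
  have h := rho_mul (C := C) (i := 3) (by omega)
  have h' := K_mul (C := C) (i := 3) (by omega)
  norm_num at h'
  rw [k_a4 hm, v_a5 hm, ← h'] at h
  have h4 : 0 < C.a 4 - C.a 3 := by
    have := C.a_lt (show 3 < 4 by omega) (by omega)
    linarith
  have h5 : (C.a 4 - C.a 3) * (C.rho 3 * C.K 3) = (C.a 4 - C.a 3) * 1 := by linarith
  exact mul_left_cancel₀ h4.ne' h5

/-- second moment of `b H` over the hyperplanes through a line -/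
theorem line_mom {L : Set α} (hL : C.IsF 2 L) (c : ℝ) :
    C.E L (fun x => (x - C.b L) * (x - c)) =
      C.rho 2 * ∑ y ∈ C.out L,
        (C.b (C.jn L y) - c + (C.k - C.b (C.jn L y)) * C.rho 3) := by
  rw [E_key (by omega) hL (fun x => x - c)]
  congr 1
  apply Finset.sum_congr rfl
  intro y hy
  have hP : C.IsF 3 (C.jn L y) := hL.jn (mem_out.1 hy).2
  rw [E_sub, E_const hP (by omega), E_id (by omega) hP]
  ring

/-- the mean over the hyperplanes through a line -/
theorem line_mean {L : Set α} (hL : C.IsF 2 L) (c : ℝ) :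
    C.E L (fun x => x - c) = C.b L - c + (C.k - C.b L) * C.rho 2 := by
  rw [E_sub, E_const hL (by omega), E_id (by omega) hL]
  ring

/-- the number of hyperplanes through a plane is `R` -/
theorem card_above_three (hm : C.m = 0) {P : Set α} (hP : C.IsF 3 P) :
    ((above C.M P (C.τ + C.m + 4)).card : ℝ) = C.K 3 := by
  rw [Siz_K (i := 3) (by omega) hP.1 (isF_top (C := C)).1 hP.2.1
    (by rw [(isF_top (C := C)).2.1, hm]) (Set.subset_univ P)]
  congr 2
  ext H
  rw [mem_above' hP.base, Div_cov hP, hm]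
  constructor
  · rintro ⟨h1, h2⟩
    exact ⟨h1, h2, Set.subset_univ H⟩
  · rintro ⟨h1, h2, -⟩
    exact ⟨h1, h2⟩

/-- sum of `b H - b P` over the hyperplanes through a plane -/
theorem sum_above_three (hm : C.m = 0) {P : Set α} (hP : C.IsF 3 P) :
    ∑ H ∈ above C.M P (C.τ + C.m + 4), (C.b H - C.b P) = C.k - C.b P := by
  have h1 := E_id (C := C) (i := 3) (by omega) hP
  have hc := card_above_three hm hP
  have hp := above_pos (C := C) hP (by omega)
  rw [PD.E, div_eq_iff hp.ne', hc] at h1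
  rw [Finset.sum_sub_distrib, Finset.sum_const, nsmul_eq_mul, hc, h1]
  have h2 := rho3_mul hm
  linear_combination (C.k - C.b P) * h2

end Pool.Agent.H92.PY
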