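import Pool.Agent.H92.PY.Gfl

/-!
# Z3: rank `t + 4`, `a 2 = 3`

Put `s = a 3 - 3`, `u = K 2`, `R = K 3`, `K = s u`.  `a 3 = 1 + 2 K1` (`a_three`), so `s = 2 K1 - 2 ≥ 6`.
`hwin`: `s k0 < s + 2`, so `k0 < 1 + 2/s ≤ 4/3`.
`exists_line`: `L` with `IsF 2 L`, `2 ≤ b L`.  If `b L ≥ 3`, take `y ∈ out L` (`out_nonempty`): `b (jn L y) ≥ 4`
(`b_add_one_le`, `sub_jn`, `mem_jn`), contradicting `hn`.  `b L` is a natural number (`b_nat`), so `b L = 2`.
`GdL C 1 L`: `pl`: `b (jn L y) ≥ 3` and `≤ 3`; `hy`: `val4_two` (`b H ≥ b L = 2`).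
`gl_false` with `w = 1`, `c = s`.  `hR`: `k = 3 + K` (`k_eq`), `v = 3 + s (1 + R (u - 1))` (`v_eq`), `k0 v = k²`
(`k0_mul`), so `(4/3) v ≥ (3 + K)²`, i.e. `4 s (1 + R (u - 1)) ≥ 3 (K + 3)² - 12 ≥ 3 K²`, so
`4 (1 + R (u - 1)) ≥ 3 K u`; as `R ≥ 1`: `1 + R (u - 1) ≤ R u`; so `4 R ≥ 3 K`.
-/

open Set

namespace Pool.Agent.H92.PY

open Pool.Agent.H63 Pool.Agent.H63.PD Pool.Agent.H69.Pmd Pool.Agent.H92.PX

set_option linter.unusedSectionVars false

variable {α : Type*} [Fintype α] {C : PD α}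

theorem Z3_real {s u R k0 k v : ℝ} (hs : 6 ≤ s) (hu : 1 ≤ u) (hR : 1 ≤ R) (hk0 : 3 * k0 ≤ 4)
    (hk : k = 3 + s * u) (hv : v = 3 + s * (1 + R * (u - 1))) (h : k0 * v = k ^ 2) (hv0 : 1 ≤ v) :
    3 * (s * u) ≤ 4 * R := by
  have h1 : 3 * k ^ 2 ≤ 4 * v := by
    have h2 : 3 * (k0 * v) ≤ 4 * v := by
      have := mul_le_mul_of_nonneg_right hk0 (by linarith : 0 ≤ v)
      linarith
    rw [h] at h2
    exact h2
  rw [hk, hv] at h1
  have hsu : 0 < s * u := by positivity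
  have h3 : s * (3 * (s * u ^ 2)) ≤ s * (4 * (1 + R * (u - 1))) := by
    have e1 : 3 * (3 + s * u) ^ 2 = 27 + 18 * (s * u) + s * (3 * (s * u ^ 2)) := by ring
    rw [e1] at h1
    linarith
  have h4 : 3 * (s * u ^ 2) ≤ 4 * (1 + R * (u - 1)) :=
    le_of_mul_le_mul_left h3 (by linarith)
  have h5 : 1 + R * (u - 1) ≤ R * u := by linarith
  have h6 : u * (3 * (s * u)) ≤ u * (4 * R) := by
    have e1 : u * (3 * (s * u)) = 3 * (s * u ^ 2) := by ring
    rw [e1]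
    linarith
  exact le_of_mul_le_mul_left h6 (by linarith)

theorem zero3 (hm : C.m = 0) (h : C.a 2 = 3) (h1 : 4 ≤ C.K 1)
    (hwin : (C.a 3 - 3) * C.k0 < C.a 3 - 1) (hn : ∀ G, C.IsF 3 G → C.b G ≤ C.a 2) : False := by
  have h3 := a_three (C := C)
  rw [h] at h3
  have hs : 6 ≤ C.a 3 - 3 := by linarith
  have hk0 : 3 * C.k0 ≤ 4 := by
    by_contra hcon
    push Not at hcon
    nlinarith
  obtain ⟨L, hL, hbL⟩ := exists_line (C := C)
  obtain ⟨n, hn'⟩ := b_nat hL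
  have hjn : ∀ y ∈ C.out L, C.b L + 1 ≤ C.b (C.jn L y) := fun y hy =>
    b_add_one_le (sub_jn L y) (mem_out.1 hy).1 (mem_jn L y) (mem_out.1 hy).2
  have hjn3 : ∀ y ∈ C.out L, C.b (C.jn L y) ≤ 3 := by
    intro y hy
    have := hn _ (hL.jn (mem_out.1 hy).2)
    rw [h] at this
    exact this
  have hbL2 : C.b L = 2 := by
    obtain ⟨y, hy⟩ := out_nonempty hL (by omega)
    have h4 := hjn y hy
    have h5 := hjn3 y hy
    rw [hn'] at h4 hbL ⊢
    have h6 : (n : ℝ) ≤ 2 := by linarith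
    have h7 : n ≤ 2 := by exact_mod_cast h6
    have h8 : 2 ≤ n := by exact_mod_cast hbL
    have h9 : n = 2 := le_antisymm h7 h8
    rw [h9]
    norm_num
  have g : GdL C 1 L :=
    { flat := hL
      bL := by rw [hbL2, h]; norm_num
      pl := by
        intro y hy
        have h4 := hjn y hy
        have h5 := hjn3 y hy
        rw [hbL2] at h4
        rw [h]
        linarith
      hy := by
        intro H hH hLH
        apply val4_two hm hH
        have h4 := b_mono (C := C) hLH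
        linarith }
  have hu := u_ge (C := C)
  have hR := R_ge (C := C)
  rw [h] at hu
  have hk := k_eq hm
  have hv := v_eq hm
  rw [h] at hk hv
  refine gl_false hm g (Or.inl ⟨h, rfl⟩) (c := C.a 3 - 3) (by rw [h]; ring) hs (by linarith) ?_ h1
  exact Z3_real hs (by linarith) (by linarith) hk0 hk hv (k0_mul (C := C)) C.v_pos

end Pool.Agent.H92.PY
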