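import Pool.Agent.H92.PY.Geq

/-!
# Z4A: `a 2 = 4`: no line has three points of `B`

Put `s = a 3 - 4 ≥ 12`, `u = K 2 ≥ 9`, `R = K 3`, `K = s u ≥ 108`.  `hwin`: `s k0 < 2 (s + 3)`, so `k0 < 2 + 6/s ≤ 5/2`.
`b L` is a natural number (`b_nat`).  If `b L ≥ 4`: `y ∈ out L`, `b (jn L y) ≥ 5`, contradiction to `hn`.  So if the
claim fails, `b L = 3`.  Then `GdL C 1 L`: `bL`: `3 = 4 - 1`; `pl`: `b (jn L y) ≥ 4` and `≤ 4`; `hy`: `val4_two`.
`gl_eq` with `w = 1`, `c = s`: `(s + 1) R ((K + 1) u - 1 - R (u - 1)) = (K + 1) K u`.  Put `y = (1 + R (u - 1))/u`; then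
`(K + 1) u - 1 - R (u - 1) = u (K + 1 - y)`, so `(s + 1) R (K + 1 - y) = (K + 1) K`.
`k = 4 + K` (`k_eq`), `v = 4 + s (1 + R (u - 1)) = 4 + K y` (`v_eq`), `k0 v = k²` (`k0_mul`), `2 < k0 ≤ 5/2`:
`(5/2)(4 + K y) ≥ (K + 4)²`, so `y ≥ (2/5) K`;  `2 (4 + K y) < (K + 4)²`, so `y < K/2 + 4 + 4/K ≤ K/2 + 5`.
`R ≥ y` (`(R - y) u = R - 1 ≥ 0`, `R ≥ u ≥ 1` by `R_ge`).  `y (K + 1 - y) ≥ (24/100) K²` for `(2/5) K ≤ y ≤ K/2 + 5`
(concave in `y`: `(y - (2/5) K)(K/2 + 5 - y) ≥ 0` gives `y (K+1-y) ≥ K²/5 + 2 K + y/10 K - 4 y`, which is at least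
`(24/100) K²` as `y ≥ (2/5) K` and `K ≥ 108 > 40`, `2 K + (K/10 - 4) y ≥ 2 K + (K/10 - 4)(2/5) K = K²/25 + (2/5) K`).
So `(K + 1) K = (s + 1) R (K + 1 - y) ≥ 13 * (24/100) K²`, a contradiction.
-/

open Set

namespace Pool.Agent.H92.PY

open Pool.Agent.H63 Pool.Agent.H63.PD Pool.Agent.H69.Pmd Pool.Agent.H92.PX

set_option linter.unusedSectionVars false

variable {α : Type*} [Fintype α] {C : PD α}

theorem b_two (hm : C.m = 0) (h : C.a 2 = 4) (h16 : 16 ≤ C.a 3) (hK2 : 9 ≤ C.K 2)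
    (hlo : 2 < C.k0) (hwin : (C.a 3 - 4) * C.k0 < 2 * (C.a 3 - 1))
    (hn : ∀ G, C.IsF 3 G → C.b G ≤ C.a 2) {L : Set α} (hL : C.IsF 2 L) : C.b L ≤ 2 := by
  by_contra hcon
  rw [not_le] at hcon
  have hb3 : (3 : ℝ) ≤ C.b L := by
    obtain ⟨n, hn'⟩ := b_nat hL
    rw [hn'] at hcon ⊢
    have h1 : 2 < n := by exact_mod_cast hcon
    have h2 : 3 ≤ n := h1
    exact_mod_cast h2
  have hpl : ∀ z ∈ C.out L, C.b L + 1 ≤ C.b (C.jn L z) ∧ C.b (C.jn L z) ≤ 4 := by
    intro z hz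
    obtain ⟨hzB, hzn⟩ := mem_out.1 hz
    refine ⟨b_add_one_le (C := C) (sub_jn (C := C) L z) hzB (mem_jn (C := C) L z) hzn, ?_⟩
    rw [← h]
    exact hn _ (hL.jn hzn)
  obtain ⟨z₀, hz₀⟩ := out_nonempty (C := C) hL (by omega)
  have hbL : C.b L = 3 := le_antisymm (by linarith [hpl z₀ hz₀]) hb3
  have g : GdL C 1 L := by
    refine ⟨hL, by rw [hbL, h]; norm_num, fun z hz => ?_, fun H hH hLH => ?_⟩
    · have h1 := hpl z hz
      rw [h]
      exact le_antisymm h1.2 (by linarith)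
    · refine val4_two hm hH ?_
      have := b_mono (C := C) hLH
      linarith
  have e := gl_eq hm g one_pos (c := C.a 3 - 4) (by rw [h]; ring)
  set u := C.K 2 with hu
  set R := C.K 3 with hR
  set s := C.a 3 - 4 with hs
  set K := s * u with hK
  have hs12 : 12 ≤ s := by linarith
  have hu0 : 0 < u := by linarith
  have hRu : u ≤ R := R_ge
  have hK108 : 108 ≤ K := by
    rw [hK]
    nlinarith
  have hk : C.k = K + 4 := by
    have := k_eq (C := C) hm
    rw [h] at this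
    rw [this]
    ring
  set y := (1 + R * (u - 1)) / u with hy'
  have hy : y * u = 1 + R * (u - 1) := by
    rw [hy']
    field_simp
  have hv : C.v = K * y + 4 := by
    have := v_eq (C := C) hm
    rw [h, ← hR, ← hu, ← hy] at this
    rw [this]
    ring
  have hy0 : 0 < y := by
    rw [hy']
    apply div_pos _ hu0
    nlinarith
  have hk0 : C.k0 * (K * y + 4) = (K + 4) ^ 2 := by
    have := k0_mul (C := C)
    rw [hv, hk] at this
    exact this
  have hk0u : C.k0 ≤ 5 / 2 := by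
    by_contra hcon
    rw [not_le] at hcon
    nlinarith
  have hKpos : 0 < K := by linarith
  have hyl : 2 / 5 * K ≤ y := by
    have h3 : (K + 4) ^ 2 ≤ 5 / 2 * (K * y + 4) := by
      rw [← hk0]
      apply mul_le_mul_of_nonneg_right hk0u
      positivity
    have h4 : K * (2 / 5 * K) ≤ K * y := by nlinarith
    exact le_of_mul_le_mul_left h4 hKpos
  have hyu : y ≤ K / 2 + 5 := by
    have h3 : 2 * (K * y + 4) ≤ (K + 4) ^ 2 := by
      rw [← hk0]
      exact mul_le_mul_of_nonneg_right hlo.le (by positivity)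
    have h4 : K * y ≤ K * (K / 2 + 5) := by nlinarith
    exact le_of_mul_le_mul_left h4 hKpos
  have hRy : y ≤ R := by
    have h3 : (R - y) * u = R - 1 := by
      rw [sub_mul, hy]
      ring
    by_contra hcon
    rw [not_le] at hcon
    nlinarith
  have e2 : (s + 1) * R * (K + 1 - y) = (K + 1) * K := by
    have h3 : u * ((s + 1) * R * (K + 1 - y)) = u * ((K + 1) * K) := by
      have h4 : (K + 1) * u - 1 - R * (u - 1) = u * (K + 1 - y) := by
        linear_combination hy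
      rw [h4] at e
      linear_combination e
    exact mul_left_cancel₀ hu0.ne' h3
  have h5 : 24 / 100 * K ^ 2 ≤ y * (K + 1 - y) := by
    have h6 : 0 ≤ (y - 2 / 5 * K) * (K / 2 + 5 - y) :=
      mul_nonneg (by linarith) (by linarith)
    have h7 : 0 ≤ (K / 10 - 4) * (y - 2 / 5 * K) := mul_nonneg (by linarith) (by linarith)
    nlinarith
  have hpos : 0 ≤ K + 1 - y := by linarith
  have h8 : 13 * (24 / 100 * K ^ 2) ≤ (s + 1) * R * (K + 1 - y) := by
    calc 13 * (24 / 100 * K ^ 2) ≤ 13 * (y * (K + 1 - y)) := by linarith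
      _ ≤ (s + 1) * (R * (K + 1 - y)) := by
        refine mul_le_mul (by linarith) (mul_le_mul_of_nonneg_right hRy hpos) ?_ (by linarith)
        positivity
      _ = _ := by ring
  rw [e2] at h8
  nlinarith

end Pool.Agent.H92.PY
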