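import Pool.Agent.H92.PY.GLd

/-!
# Z4B: `a 2 = 4`: the number `n1` of planes with three points of `B` through a line with two points

Notation: `μ = a 3`, `s = μ - 4`, `u = K 2`, `R = K 3`, `K = s u`, `k = 4 + K` (`k_eq`), `y u = 1 + R (u - 1)`, so
`rho 2 * y = 1` (`rho2_mul`, `u > 0`), `rho 3 * R = 1` (`rho3_mul`).
`line_mom hL 4`: `E L ((x - 2)(x - 4)) = rho 2 * ∑_{z ∈ out L} (b P_z - 4 + (k - b P_z) rho 3)`, `P_z = jn L z`.
For `z ∈ out L`: `b P_z ≥ 3` (`b_add_one_le`) and `≤ 4`, a natural number (`b_nat`), so `3` or `4`: the summand is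
`(k - 4) rho 3` if `b P_z = 4` and `(k - 3) rho 3 - 1` if `b P_z = 3`, i.e. always
`(k - 4) rho 3 + (if b P_z = 3 then rho 3 - 1 else 0)`.  So the sum is `(k - 2)(k - 4) rho 3 + n1 (rho 3 - 1)`.
On the other hand every hyperplane `H ⊇ L` has `b H ∈ {4, μ}` (`val4_two`, `b_mono`), `(x - 2)(x - 4) =
(μ - 2)(x - 4)` for these, so (`E_congr`, `E_mul`, `line_mean`)
`(μ - 2)((k - 2) rho 2 - 2) = rho 2 ((k - 2)(k - 4) rho 3 + n1 (rho 3 - 1))`.  Multiply by `y R`: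
`(s + 2) R (K + 2 - 2 y) = (K + 2) K + n1 (1 - R)`.
-/

open Set

namespace Pool.Agent.H92.PY

open Pool.Agent.H63 Pool.Agent.H63.PD Pool.Agent.H69.Pmd Pool.Agent.H92.PX

set_option linter.unusedSectionVars false

variable {α : Type*} [Fintype α] {C : PD α}

theorem eq_four (hm : C.m = 0) (h : C.a 2 = 4) (hn : ∀ G, C.IsF 3 G → C.b G ≤ C.a 2)
    {L : Set α} (hL : C.IsF 2 L) (hbL : C.b L = 2) {K y : ℝ} (hK : K = (C.a 3 - 4) * C.K 2)
    (hy : y * C.K 2 = 1 + C.K 3 * (C.K 2 - 1)) :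
    (n1 C L : ℝ) * (C.K 3 - 1) =
      (K + 2) * K - (C.a 3 - 2) * C.K 3 * (K + 2 - 2 * y) := by
  classical
  have h1 := line_mom (C := C) hL 4
  have h2 : C.E L (fun x => (x - C.b L) * (x - 4)) =
      C.E L (fun x => (C.a 3 - 2) * (x - 4)) := by
    apply E_congr hL.base
    intro H hH hLH
    have hb2 : 2 ≤ C.b H := by rw [← hbL]; exact b_mono hLH
    rcases val4_two hm hH hb2 with h3 | h3
    · rw [h3, h, hbL]; ring
    · rw [h3, hbL]
  rw [h2, E_mul, line_mean hL, hbL] at h1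
  have h3 : ∀ z ∈ C.out L, (C.b (C.jn L z) - 4 + (C.k - C.b (C.jn L z)) * C.rho 3) =
      (C.k - 4) * C.rho 3 + (if C.b (C.jn L z) = 3 then (C.rho 3 - 1) else 0) := by
    intro z hz
    obtain ⟨hzB, hzL⟩ := mem_out.1 hz
    have hP : C.IsF 3 (C.jn L z) := hL.jn hzL
    have e1 := hn _ hP
    rw [h] at e1
    have e2 := b_add_one_le (C := C) (sub_jn (C := C) L z) hzB (mem_jn (C := C) _ z) hzL
    rw [hbL] at e2
    obtain ⟨n, hn'⟩ := b_nat hP
    rw [hn'] at e1 e2 ⊢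
    have e3 : n ≤ 4 := by exact_mod_cast e1
    have e4 : 3 ≤ n := by
      have : ((3 : ℕ) : ℝ) ≤ n := by push_cast; linarith
      exact_mod_cast this
    have e5 : n = 3 ∨ n = 4 := by omega
    rcases e5 with rfl | rfl
    · norm_num
      ring
    · norm_num
  rw [Finset.sum_congr rfl h3, Finset.sum_add_distrib, Finset.sum_const, nsmul_eq_mul, card_out,
    hbL, ← Finset.sum_filter, Finset.sum_const, nsmul_eq_mul] at h1
  have hcard : (((C.out L).filter (fun z => C.b (C.jn L z) = 3)).card : ℝ) = (n1 C L : ℝ) := by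
    rw [n1]
  rw [hcard] at h1
  have hr2 := rho2_mul hm
  have hr3 := rho3_mul hm
  have hu : 0 < C.K 2 := by
    have := u_ge (C := C)
    have := a_two_ge (C := C)
    linarith
  have hry : C.rho 2 * y = 1 := by
    have : (C.rho 2 * y) * C.K 2 = 1 * C.K 2 := by
      rw [← hy] at hr2
      linarith
    exact mul_right_cancel₀ hu.ne' this
  have hk := k_eq hm
  rw [h, ← hK] at hk
  rw [hk] at h1
  have h4 : (C.a 3 - 2) * (2 - 4 + (4 + K - 2) * C.rho 2) * (y * C.K 3) =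
      C.rho 2 * ((4 + K - 2) * ((4 + K - 4) * C.rho 3) + (n1 C L : ℝ) * (C.rho 3 - 1)) *
        (y * C.K 3) := by rw [h1]
  have h5 : (C.a 3 - 2) * (2 - 4 + (4 + K - 2) * C.rho 2) * (y * C.K 3) =
      (C.a 3 - 2) * C.K 3 * ((K + 2) * (C.rho 2 * y) - 2 * y) := by ring
  have h6 : C.rho 2 * ((4 + K - 2) * ((4 + K - 4) * C.rho 3) + (n1 C L : ℝ) * (C.rho 3 - 1)) *
        (y * C.K 3) = (C.rho 2 * y) * ((K + 2) * K * (C.rho 3 * C.K 3) +
        (n1 C L : ℝ) * ((C.rho 3 * C.K 3) - C.K 3)) := by ring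
  rw [h5, h6, hry, hr3] at h4
  linear_combination h4

end Pool.Agent.H92.PY
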