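import Pool.Agent.H92.PY.GLd

/-!
# Z4C: `a 2 = 4`: if `n1 > 0` then `n1` is large

Notation: `μ = a 3`, `s = μ - 4 > 0`, `u = K 2`, `R = K 3`.  `P = jn L y` (`IsF 3`, `b P = 3`, `L ⊆ P`).
(1) `sum_above_three hm hP`: `∑_{H ⊇ P} (b H - 3) = k - 3 = s u + 1` (`k_eq`), sum over the `R` (`card_above_three`)
hyperplanes `H ⊇ P`; each has `b H ∈ {4, μ}` (`val4_two`), so `b H - 3 ∈ {1, s + 1}`.  Let `Lt` be the finset of those
with `b H = 4`: `|Lt| + (s + 1)(R - |Lt|) = s u + 1`, so `|Lt| = R - u + (R - 1)/s`.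
(2) For `H ∈ Lt`: `b H = 4 > b P`, so there is `z_H ∈ B ∩ H`, `z_H ∉ P` (choice); `z_H ∈ out L`.  `jn L z_H ⊆ H`
(`jn_subset`), `IsF 3`, `≠ P`, `P ∩ jn L z_H = L` (`IsF.inter_eq`), `b P + b (jn L z_H) ≤ b H + b L` (`b_union_le`), so
`b (jn L z_H) ≤ 3`, and `≥ 3` (`b_add_one_le`): `= 3`.  So `z_H` is in the finset of the definition of `n1`.
(3) `H ↦ z_H` is injective on `Lt` (`H = jn P z_H`, `IsF.eq_jn`), and `y` is in the finset too, `y ≠ z_H` as
`y ∈ P`.  So `n1 ≥ |Lt| + 1` (`Finset.card_le_card_of_injOn` into the finset erased by `y`).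
-/

open Set

namespace Pool.Agent.H92.PY

open Pool.Agent.H63 Pool.Agent.H63.PD Pool.Agent.H69.Pmd Pool.Agent.H92.PX

set_option linter.unusedSectionVars false

variable {α : Type*} [Fintype α] {C : PD α}

theorem Z4c_point {P H : Set α} (h : C.b P < C.b H) : ∃ z, z ∈ H ∧ z ∈ C.B ∧ z ∉ P := by
  by_contra hcon
  push Not at hcon
  have h1 : C.B ∩ H ⊆ C.B ∩ P := fun z hz => ⟨hz.1, hcon z hz.2 hz.1⟩
  have h2 := Set.ncard_le_ncard h1 (Set.toFinite _)
  have h3 : ((C.B ∩ H).ncard : ℝ) ≤ (C.B ∩ P).ncard := by exact_mod_cast h2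
  simp only [PD.b] at h
  linarith

theorem n1_ge (hm : C.m = 0) (h : C.a 2 = 4) {L : Set α} (hL : C.IsF 2 L)
    (hbL : C.b L = 2) {y : α} (hy : y ∈ C.out L) (h3 : C.b (C.jn L y) = 3) :
    C.K 3 + 1 - C.K 2 + (C.K 3 - 1) / (C.a 3 - 4) ≤ (n1 C L : ℝ) := by
  classical
  obtain ⟨hyB, hyL⟩ := mem_out.1 hy
  have hP : C.IsF 3 (C.jn L y) := hL.jn hyL
  set P := C.jn L y with hPdef
  have hs : 0 < C.a 3 - 4 := by
    have := s_pos (C := C)
    rw [h] at this
    exact this
  -- the hyperplanes through `P`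
  have hmemH : ∀ H, H ∈ above C.M P (C.τ + C.m + 4) ↔ C.IsF (C.m + 4) H ∧ P ⊆ H :=
    fun H => mem_above' hP.base
  have hval : ∀ H ∈ above C.M P (C.τ + C.m + 4), C.b H = 4 ∨ C.b H = C.a 3 := by
    intro H hH
    obtain ⟨h1, h2⟩ := (hmemH H).1 hH
    have h4 := b_mono (C := C) h2
    rw [h3] at h4
    rcases val4_two hm h1 (by linarith) with h5 | h5
    · left; rw [h5, h]
    · exact Or.inr h5
  set Lt := (above C.M P (C.τ + C.m + 4)).filter (fun H => C.b H = 4) with hLt
  have hsum := sum_above_three hm hP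
  have hcard := card_above_three hm hP
  have hk := k_eq hm
  rw [h3, hk, h] at hsum
  have hsplit : ∑ H ∈ above C.M P (C.τ + C.m + 4), (C.b H - 3) =
      (Lt.card : ℝ) * 1 + (C.K 3 - Lt.card) * (C.a 3 - 3) := by
    rw [← Finset.sum_filter_add_sum_filter_not _ (fun H => C.b H = 4)]
    congr 1
    · rw [Finset.sum_congr rfl (g := fun _ => (1 : ℝ))]
      · rw [Finset.sum_const, nsmul_eq_mul]
      · intro H hH
        rw [Finset.mem_filter] at hH
        rw [hH.2]
        norm_num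
    · rw [Finset.sum_congr rfl (g := fun _ => C.a 3 - 3)]
      · rw [Finset.sum_const, nsmul_eq_mul]
        congr 1
        have h5 := Finset.card_filter_add_card_filter_not (s := above C.M P (C.τ + C.m + 4))
          (fun H => C.b H = 4)
        have h6 : ((Lt.card : ℕ) : ℝ) + ((((above C.M P (C.τ + C.m + 4)).filter
            (fun H => ¬ C.b H = 4)).card : ℕ) : ℝ) = C.K 3 := by
          rw [← hcard, ← h5, hLt]
          push_cast
          rfl
        linarith
      · intro H hH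
        rw [Finset.mem_filter] at hH
        rcases hval H hH.1 with h5 | h5
        · exact absurd h5 hH.2
        · rw [h5]
  rw [hsplit] at hsum
  have hLtcard : (Lt.card : ℝ) = C.K 3 - C.K 2 + (C.K 3 - 1) / (C.a 3 - 4) := by
    have h5 : (Lt.card : ℝ) * (C.a 3 - 4) =
        (C.K 3 - C.K 2) * (C.a 3 - 4) + (C.K 3 - 1) := by linarith
    rw [← mul_left_inj' hs.ne', h5]
    field_simp
  -- the points
  have hpt : ∀ H, H ∈ Lt → ∃ z, z ∈ H ∧ z ∈ C.B ∧ z ∉ P := by
    intro H hH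
    rw [hLt, Finset.mem_filter] at hH
    apply Z4c_point
    rw [h3, hH.2]
    norm_num
  haveI : Nonempty α := ⟨y⟩
  choose! f hf using hpt
  have hcardle : Lt.card ≤ (((C.out L).filter (fun z => C.b (C.jn L z) = 3)).erase y).card := by
    refine Finset.card_le_card_of_injOn f ?_ ?_
    · intro H hH
      have hH' : H ∈ Lt := hH
      obtain ⟨h1, h2, h4⟩ := hf H hH'
      rw [hLt, Finset.mem_filter] at hH'
      obtain ⟨hHF, hPH⟩ := (hmemH H).1 hH'.1
      have hzL : f H ∉ L := fun hz => h4 (sub_jn L y hz)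
      have hJ : C.IsF 3 (C.jn L (f H)) := hL.jn hzL
      have hLH : L ⊆ H := (sub_jn L y).trans hPH
      have hJH : C.jn L (f H) ⊆ H := jn_subset hHF hLH h1
      have hne : P ≠ C.jn L (f H) := by
        intro he
        exact h4 (by rw [he]; exact mem_jn L (f H))
      have hint : P ∩ C.jn L (f H) = L := hL.inter_eq hP hJ (sub_jn L y) (sub_jn L (f H)) hne
      have hb1 := b_union_le (C := C) hPH hJH hint.subset
      have hb2 : C.b L + 1 ≤ C.b (C.jn L (f H)) :=
        b_add_one_le (sub_jn L (f H)) h2 (mem_jn L (f H)) hzL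
      rw [h3, hH'.2, hbL] at hb1
      rw [hbL] at hb2
      rw [Finset.mem_coe, Finset.mem_erase, Finset.mem_filter, mem_out]
      refine ⟨?_, ⟨h2, hzL⟩, by linarith⟩
      intro he
      exact h4 (by rw [he]; exact mem_jn L y)
    · intro H hH H' hH' he
      have hHm : H ∈ Lt := hH
      have hHm' : H' ∈ Lt := hH'
      obtain ⟨h1, h2, h4⟩ := hf H hHm
      obtain ⟨h1', h2', h4'⟩ := hf H' hHm'
      rw [hLt, Finset.mem_filter] at hHm hHm'
      obtain ⟨hHF, hPH⟩ := (hmemH H).1 hHm.1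
      obtain ⟨hHF', hPH'⟩ := (hmemH H').1 hHm'.1
      rw [hm] at hHF hHF'
      have e1 : C.jn P (f H) = H := hP.eq_jn hHF hPH h1 h4
      have e2 : C.jn P (f H') = H' := hP.eq_jn hHF' hPH' h1' h4'
      rw [← e1, ← e2, he]
  have hymem : y ∈ (C.out L).filter (fun z => C.b (C.jn L z) = 3) := by
    rw [Finset.mem_filter]
    exact ⟨hy, h3⟩
  have hcard2 : Lt.card + 1 ≤ n1 C L := by
    have h5 := Finset.card_erase_add_one hymem
    unfold n1
    have h6 : ((C.out L).filter (fun z => C.b (C.jn L z) = 3)).card =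
        ((C.out L).filter (fun z => C.b (C.jn L z) = 3)).card := rfl
    calc Lt.card + 1 ≤ (((C.out L).filter (fun z => C.b (C.jn L z) = 3)).erase y).card + 1 := by
          omega
      _ = ((C.out L).filter (fun z => C.b (C.jn L z) = 3)).card := h5
      _ = _ := by
        refine congrArg Finset.card ?_
        ext z
        simp only [Finset.mem_filter]
  have hcard3 : (Lt.card : ℝ) + 1 ≤ (n1 C L : ℝ) := by exact_mod_cast hcard2
  rw [hLtcard] at hcard3
  linarith

end Pool.Agent.H92.PY
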