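import Pool.Agent.H92.PY.GLd

/-!
# Z4N: `a 2 = 4`: the number of hyperplanes missing `B` is nonnegative

Every hyperplane has `b H ∈ {0, 1, 4, μ}` (`val4`), so `(x - 1)(x - 4)(x - μ) ≤ 0` for `x = b H` (it is `- 4 μ` for
`x = 0`, zero otherwise; `μ = a 3 ≥ 0` by `a_nonneg`); hence `E F₀ ((x - 1)(x - 4)(x - μ)) ≤ 0` (`E_mono` with the
constant `0`, `E_const isF_base`).  Now `(x-1)(x-4)(x-μ) = x(x-1)(x-2) - (μ+2) x(x-1) + 4 μ x - 4 μ`
(`E_add`, `E_sub`, `E_mul`).  `E_base_id`, `E_base_sq`.  `E_base_two (fun x => x - 2)`: for `y ∈ out F₀`,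
`z ∈ out (jn F₀ y)` the line `L = jn (jn F₀ y) z` (`point`, `IsF.jn`) has `b L ≥ 2` (`point`, `b_add_one_le`) and
`≤ 2` (`hb`), so `E L (x - 2) = (k - 2) rho 2` (`line_mean`).  `|out F₀| = k` (`card_out`, `b_base`),
`|out (jn F₀ y)| = k - 1`.  So `E F₀ (x (x-1)(x-2)) = rho 0 rho 1 k (k - 1) (k - 2) rho 2
= k0 k1 ((k - 2) rho 2)` (`rho_zero_mul`, `rho_one_mul`).
-/

open Set

namespace Pool.Agent.H92.PY

open Pool.Agent.H63 Pool.Agent.H63.PD Pool.Agent.H69.Pmd Pool.Agent.H92.PX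

set_option linter.unusedSectionVars false

variable {α : Type*} [Fintype α] {C : PD α}

theorem n_zero (hm : C.m = 0) (h : C.a 2 = 4) (hb : ∀ L, C.IsF 2 L → C.b L ≤ 2) :
    C.k0 * C.k1 * ((C.k - 2) * C.rho 2) - (C.a 3 + 2) * (C.k0 * C.k1) + 4 * C.a 3 * C.k0 -
      4 * C.a 3 ≤ 0 := by
  have hmu : 0 ≤ C.a 3 := C.a_nonneg (by omega)
  -- the sign
  have h1 : C.E C.F₀ (fun x => x * (x - 1) * (x - 2) - (C.a 3 + 2) * (x * (x - 1)) +
      4 * C.a 3 * x - 4 * C.a 3) ≤ C.E C.F₀ (fun _ => 0) := by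
    apply E_mono (Set.Subset.refl _)
    intro H hH _
    rcases val4 hm hH with h2 | h2 | h2 | h2
    · rw [h2]; nlinarith
    · rw [h2]; nlinarith
    · rw [h2, h]; nlinarith
    · rw [h2]; nlinarith
  rw [E_const isF_base (by omega), E_sub, E_add, E_sub, E_mul, E_mul,
    E_const isF_base (by omega), E_base_id, E_base_sq, E_base_two (fun x => x - 2)] at h1
  have h2 : ∑ y ∈ C.out C.F₀, ∑ z ∈ C.out (C.jn C.F₀ y),
      C.E (C.jn (C.jn C.F₀ y) z) (fun x => x - 2) = C.k * ((C.k - 1) * ((C.k - 2) * C.rho 2)) := by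
    have h3 : ∀ y ∈ C.out C.F₀, ∑ z ∈ C.out (C.jn C.F₀ y),
        C.E (C.jn (C.jn C.F₀ y) z) (fun x => x - 2) = (C.k - 1) * ((C.k - 2) * C.rho 2) := by
      intro y hy
      obtain ⟨p1, p2⟩ := point hy
      have h4 : ∀ z ∈ C.out (C.jn C.F₀ y),
          C.E (C.jn (C.jn C.F₀ y) z) (fun x => x - 2) = (C.k - 2) * C.rho 2 := by
        intro z hz
        obtain ⟨hzB, hzF⟩ := mem_out.1 hz
        have hL : C.IsF 2 (C.jn (C.jn C.F₀ y) z) := p1.jn hzF
        have e1 := hb _ hL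
        have e2 := b_add_one_le (C := C) (sub_jn (C := C) (C.jn C.F₀ y) z) hzB (mem_jn (C := C) _ z) hzF
        have e3 : C.b (C.jn (C.jn C.F₀ y) z) = 2 := by linarith
        rw [line_mean hL, e3]
        ring
      rw [Finset.sum_congr rfl h4, Finset.sum_const, nsmul_eq_mul, card_out, p2]
    rw [Finset.sum_congr rfl h3, Finset.sum_const, nsmul_eq_mul, card_out, b_base, sub_zero]
  rw [h2] at h1
  have e0 := rho_zero_mul (C := C)
  have e1 := rho_one_mul (C := C)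
  have h5 : C.rho 0 * C.rho 1 * (C.k * ((C.k - 1) * ((C.k - 2) * C.rho 2))) =
      C.k0 * C.k1 * ((C.k - 2) * C.rho 2) := by
    rw [← e0, ← e1]; ring
  rw [h5] at h1
  linarith

end Pool.Agent.H92.PY
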