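import Mathlib

/-!
# Z4V: a real inequality

Put `D = K + 2 - 2 y ≥ 0`, `μ = s + 4`.  All steps are elementary; do them one by one (avoid big `nlinarith`s).
(1) `R ≥ 1` (otherwise `y u = 1 + R (u - 1) ≤ u`, `y ≤ 1`, but `5 y ≥ 2 K + 15`), so `(R - y) u = R - 1 ≥ 0`, `R ≥ y`.
(2) `u ≤ K / 12`.  `y ≥ (2/5) K + 3`.  `(R - 1)(R + 1 - u + (R - 1)/s) ≥ (y - 1)(y + 1 - K/12)
≥ ((2/5) K + 2)((19/60) K + 4) ≥ (19/150) K² + (67/30) K` (drop `(R-1)/s ≥ 0`; products of nonnegative factors).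
So V1 gives `(s + 2) R D ≤ K² + 2 K - (19/150) K² - (67/30) K ≤ (131/150) K²`, and `(s + 2) y D ≤ (131/150) K²`
(`D ≥ 0`, `y ≤ R`).
(3) `s + 2 ≥ 14`, `y ≥ (2/5) K`: `(28/5) K D ≤ (131/150) K²`, so `D ≤ (131/840) K`.
(4) `(12 K² + 18 K) D + 15 K² + 36 K < 2 K³`: the left side is at most `(131/840)(12 K³ + 18 K²) + 15 K² + 36 K
≤ 1.8715 K³ + 18 K² + 36 K`, and `0.1285 K ≥ 0.1285 * 180 > 23 > 18 + 36/K`.
(5) Multiply N0 by `y (K y + 3)(K y + 4) > 0`, using h0, h1, h2: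
`(K+4)²(K+3)²(K+2) - (μ+2)(K+4)²(K+3)² y + 4 μ (K+4)² (K y + 3) y - 4 μ (K y + 4)(K y + 3) y ≤ 0`, that is
`(K+4)²(K+3)² D ≤ μ y Ψ`, `Ψ = (K+4)²(K+3)² - 4 (K+4)² (K y + 3) + 4 (K y + 4)(K y + 3)
= K² D² + (12 K² + 18 K) D - 2 K³ + 15 K² + 36 K` (as `2 y = K + 2 - D`; `ring`).  By (4) `Ψ < K² D²`, so
`(K+4)²(K+3)² D < μ y K² D²`; hence `D > 0` and `(K+4)²(K+3)² < K² (μ y D)`.
(6) `μ y D = (s + 4) y D ≤ (16/14)(s + 2) y D ≤ (16/14)(131/150) K² ≤ K²` (`(s+4) * 14 ≤ 16 (s + 2)` as `s ≥ 12`).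
So `(K+4)²(K+3)² < K⁴`, a contradiction.
-/

namespace Pool.Agent.H92.PY

theorem real4 {s u K R y k0 k1 k2 : ℝ} (hs : 12 ≤ s) (hu : 1 ≤ u) (hK : K = s * u)
    (hK180 : 180 ≤ K) (hy : y * u = 1 + R * (u - 1)) (hyl : 2 * K + 15 ≤ 5 * y)
    (hD : 2 * y ≤ K + 2)
    (V1 : (R - 1) * (R + 1 - u + (R - 1) / s) ≤ (K + 2) * K - (s + 2) * R * (K + 2 - 2 * y))
    (h0 : k0 * (K * y + 4) = (K + 4) ^ 2) (h1 : k1 * (K * y + 3) = (K + 3) ^ 2)
    (h2 : k2 * y = K + 2)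
    (N0 : k0 * k1 * k2 - (s + 6) * (k0 * k1) + 4 * (s + 4) * k0 - 4 * (s + 4) ≤ 0) : False := by
  have hy72 : 75 ≤ y := by linarith
  -- (1)
  have hR1 : 1 ≤ R := by
    by_contra hcon
    push Not at hcon
    have : R * (u - 1) ≤ 1 * (u - 1) := mul_le_mul_of_nonneg_right hcon.le (by linarith)
    nlinarith
  have hRy : y ≤ R := by
    have h3 : 0 ≤ (R - y) * u := by
      have : (R - y) * u = R - 1 := by linarith
      rw [this]; linarith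
    by_contra hcon
    push Not at hcon
    have : (R - y) * u < 0 := mul_neg_of_neg_of_pos (by linarith) (by linarith)
    linarith
  -- (2)
  have hu12 : 12 * u ≤ K := by rw [hK]; exact mul_le_mul_of_nonneg_right hs (by linarith)
  have hprod : (2 / 5 * K + 2) * (19 / 60 * K + 4) ≤ (R - 1) * (R + 1 - u + (R - 1) / s) := by
    have e1 : 0 ≤ (R - 1) / s := div_nonneg (by linarith) (by linarith)
    exact mul_le_mul (by linarith) (by linarith) (by linarith) (by linarith)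
  obtain ⟨D, hDdef⟩ : ∃ D, D = K + 2 - 2 * y := ⟨_, rfl⟩
  have hD0 : 0 ≤ D := by rw [hDdef]; linarith
  rw [← hDdef] at V1
  have hRD : (s + 2) * R * D ≤ 131 / 150 * K ^ 2 := by nlinarith
  have hyD : (s + 2) * (y * D) ≤ 131 / 150 * K ^ 2 := by
    have e1 : y * D ≤ R * D := mul_le_mul_of_nonneg_right hRy hD0
    have e2 : (s + 2) * (y * D) ≤ (s + 2) * (R * D) := mul_le_mul_of_nonneg_left e1 (by linarith)
    linarith
  have hyD0 : 0 ≤ y * D := mul_nonneg (by linarith) hD0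
  -- (3)
  have hDle : D ≤ 131 / 840 * K := by
    have e1 : 14 * (y * D) ≤ (s + 2) * (y * D) := mul_le_mul_of_nonneg_right (by linarith) hyD0
    have e2 : 2 / 5 * K * D ≤ y * D := mul_le_mul_of_nonneg_right (by linarith) hD0
    have e3 : K * D ≤ K * (131 / 840 * K) := by nlinarith
    exact le_of_mul_le_mul_left e3 (by linarith)
  -- (4)
  have hsmall : (12 * K ^ 2 + 18 * K) * D + 15 * K ^ 2 + 36 * K < 2 * K ^ 3 := by
    have e1 : (12 * K ^ 2 + 18 * K) * D ≤ (12 * K ^ 2 + 18 * K) * (131 / 840 * K) :=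
      mul_le_mul_of_nonneg_left hDle (by positivity)
    have e2 : 180 * K ^ 2 ≤ K * K ^ 2 := mul_le_mul_of_nonneg_right hK180 (by positivity)
    have e3 : 180 * K ≤ K * K := mul_le_mul_of_nonneg_right hK180 (by linarith)
    nlinarith
  -- (5)
  have hp3 : 0 < K * y + 3 := by positivity
  have hp4 : 0 < K * y + 4 := by positivity
  have hN : (K + 4) ^ 2 * (K + 3) ^ 2 * D ≤ (s + 4) * y * (K ^ 2 * D ^ 2 +
      (12 * K ^ 2 + 18 * K) * D - 2 * K ^ 3 + 15 * K ^ 2 + 36 * K) := by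
    have e1 : (k0 * k1 * k2 - (s + 6) * (k0 * k1) + 4 * (s + 4) * k0 - 4 * (s + 4)) *
        (y * (K * y + 3) * (K * y + 4)) ≤ 0 :=
      mul_nonpos_of_nonpos_of_nonneg N0 (by positivity)
    have e2 : (k0 * k1 * k2 - (s + 6) * (k0 * k1) + 4 * (s + 4) * k0 - 4 * (s + 4)) *
        (y * (K * y + 3) * (K * y + 4)) =
        (k0 * (K * y + 4)) * (k1 * (K * y + 3)) * (k2 * y) -
        (s + 6) * ((k0 * (K * y + 4)) * (k1 * (K * y + 3))) * y +
        4 * (s + 4) * (k0 * (K * y + 4)) * (K * y + 3) * y -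
        4 * (s + 4) * (K * y + 4) * (K * y + 3) * y := by ring
    rw [e2, h0, h1, h2] at e1
    have e3 : (K + 4) ^ 2 * (K + 3) ^ 2 * (K + 2) - (s + 6) * ((K + 4) ^ 2 * (K + 3) ^ 2) * y +
        4 * (s + 4) * (K + 4) ^ 2 * (K * y + 3) * y -
        4 * (s + 4) * (K * y + 4) * (K * y + 3) * y =
        (K + 4) ^ 2 * (K + 3) ^ 2 * D - (s + 4) * y * (K ^ 2 * D ^ 2 +
      (12 * K ^ 2 + 18 * K) * D - 2 * K ^ 3 + 15 * K ^ 2 + 36 * K) := by
      rw [hDdef]; ring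
    rw [e3] at e1
    linarith
  have hlt : (K + 4) ^ 2 * (K + 3) ^ 2 * D < (s + 4) * y * (K ^ 2 * D ^ 2) := by
    refine lt_of_le_of_lt hN ?_
    apply mul_lt_mul_of_pos_left _ (by positivity)
    linarith
  have hDpos : 0 < D := by
    rcases hD0.eq_or_lt with h3 | h3
    · rw [← h3] at hlt
      norm_num at hlt
    · exact h3
  have h6 : (K + 4) ^ 2 * (K + 3) ^ 2 < K ^ 2 * ((s + 4) * (y * D)) := by
    have : D * ((K + 4) ^ 2 * (K + 3) ^ 2) < D * (K ^ 2 * ((s + 4) * (y * D))) := by linarith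
    exact lt_of_mul_lt_mul_left this hD0
  -- (6)
  have h7 : (s + 4) * (y * D) ≤ K ^ 2 := by
    have e1 : 14 * ((s + 4) * (y * D)) ≤ 16 * ((s + 2) * (y * D)) := by
      have : 0 ≤ (s - 12) * (y * D) := mul_nonneg (by linarith) hyD0
      linarith
    nlinarith [sq_nonneg K]
  have h8 : K ^ 2 * ((s + 4) * (y * D)) ≤ K ^ 2 * K ^ 2 :=
    mul_le_mul_of_nonneg_left h7 (sq_nonneg K)
  have h9 : K ^ 2 * K ^ 2 ≤ (K + 4) ^ 2 * (K + 3) ^ 2 :=
    mul_le_mul (by nlinarith) (by nlinarith) (sq_nonneg K) (sq_nonneg _)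
  linarith

end Pool.Agent.H92.PY
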