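import Pool.Agent.H92.PY.Gfl
import Pool.Agent.H92.PY.Z4a
import Pool.Agent.H92.PY.Z4b
import Pool.Agent.H92.PY.Z4c
import Pool.Agent.H92.PY.Z4n
import Pool.Agent.H92.PY.Z4v

/-!
# Z4: rank `t + 4`, `a 2 = 4`

Notation: `s = a 3 - 4`, `u = K 2`, `R = K 3`, `K = s u`, `y = (1 + R (u - 1))/u`.  `s ≥ 12`, `u ≥ 9`, `K ≥ 189` in both
cases of `h'` (`12 * 16 = 192`, `21 * 9 = 189`).  `k0 < 2 + 6/s ≤ 5/2`.
`k = 4 + K` (`k_eq`), `v = 4 + K y` (`v_eq`), `k0 v = k²` (`k0_mul`), `k1 (v - 1) = (k - 1)²` (`k1_mul`), `rho 2 * y = 1`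
(`rho2_mul`).
(1) All lines have `b ≤ 2` (`b_two`); `exists_line`: a line `L` with `b L ≥ 2`, so `b L = 2`.
(2) `5 y ≥ 2 K + 15`: `(5/2)(4 + K y) ≥ (K + 4)²` gives `K y ≥ (2/5)(K + 4)² - 4 = (2/5) K² + (16/5) K + 12/5`.
`2 y ≤ K + 2`: every hyperplane `H ⊇ L` has `b H ≥ 4` (`val4_two`), so `4 ≤ mu 2 L = 2 + (k - 2) rho 2` (`le_mu`, `mu`),
`(K + 2) rho 2 ≥ 2`, multiply by `y > 0`.
(3) If some `z ∈ out L` has `b (jn L z) = 3`: `V1` of `real4` is `eq_four` with `n1_ge` (multiply `n1_ge` by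
`R - 1 ≥ 0`); `N0` is `n_zero` with `k2 = (k - 2) rho 2` (`a 3 = s + 4`).  `real4` gives `False`.
(4) Otherwise every `z ∈ out L` has `b (jn L z) = 4` (`≥ 3` by `b_add_one_le`, `≤ 4`, natural by `b_nat`), so
`GdL C 2 L` (`hy`: `val4_two`).  `gl_false` with `w = 2`, `c = s/2 ≥ 6`, `k0 ≤ 3`; `hR`: `R ≥ y ≥ (2/5) K` and
`c u = K/2`.  (`R ≥ y`: `(R - y) u = R - 1 ≥ 0`, `R ≥ u ≥ 1` by `R_ge`.)
-/

open Set

namespace Pool.Agent.H92.PY

open Pool.Agent.H63 Pool.Agent.H63.PD Pool.Agent.H69.Pmd Pool.Agent.H92.PX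

set_option linter.unusedSectionVars false

variable {α : Type*} [Fintype α] {C : PD α}

theorem zero4 (hm : C.m = 0) (h : C.a 2 = 4)
    (h' : (C.a 3 = 16 ∧ 16 ≤ C.K 2) ∨ (25 ≤ C.a 3 ∧ 9 ≤ C.K 2)) (h1 : 4 ≤ C.K 1)
    (hlo : 2 < C.k0) (hwin : (C.a 3 - 4) * C.k0 < 2 * (C.a 3 - 1))
    (hn : ∀ G, C.IsF 3 G → C.b G ≤ C.a 2) : False := by
  have h16 : 16 ≤ C.a 3 := by
    rcases h' with h2 | h2
    · exact h2.1.ge
    · linarith [h2.1]
  have hu9 : 9 ≤ C.K 2 := by
    rcases h' with h2 | h2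
    · linarith [h2.2]
    · exact h2.2
  have hK180 : 180 ≤ (C.a 3 - 4) * C.K 2 := by
    rcases h' with h2 | h2
    · rw [h2.1]
      linarith [h2.2]
    · nlinarith [h2.1, h2.2]
  have hb2 : ∀ L, C.IsF 2 L → C.b L ≤ 2 := fun L hL => b_two hm h h16 hu9 hlo hwin hn hL
  obtain ⟨L, hL, hLb⟩ := exists_line (C := C)
  have hbL : C.b L = 2 := le_antisymm (hb2 L hL) hLb
  set u := C.K 2 with hu
  set R := C.K 3 with hR
  set s := C.a 3 - 4 with hs
  set K := s * u with hK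
  have hs12 : 12 ≤ s := by linarith
  have hu0 : 0 < u := by linarith
  have hRu : u ≤ R := R_ge
  have hk : C.k = K + 4 := by
    have := k_eq (C := C) hm
    rw [h] at this
    rw [this]
    ring
  set y := (1 + R * (u - 1)) / u with hy'
  have hy : y * u = 1 + R * (u - 1) := by
    rw [hy']
    field_simp
  have hv : C.v = K * y + 4 := by
    have := v_eq (C := C) hm
    rw [h, ← hR, ← hu, ← hy] at this
    rw [this]
    ring
  have hy0 : 0 < y := by
    rw [hy']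
    apply div_pos _ hu0
    nlinarith
  have hrho : C.rho 2 * y = 1 := by
    have h2 := rho2_mul (C := C) hm
    rw [← hR, ← hu, ← hy, ← mul_assoc] at h2
    exact mul_right_cancel₀ hu0.ne' (by rw [h2, one_mul])
  have hk0 : C.k0 * (K * y + 4) = (K + 4) ^ 2 := by
    have := k0_mul (C := C)
    rw [hv, hk] at this
    exact this
  have hk1 : C.k1 * (K * y + 3) = (K + 3) ^ 2 := by
    have := k1_mul (C := C)
    rw [hv, hk] at this
    linear_combination this
  have hk2 : ((C.k - 2) * C.rho 2) * y = K + 2 := by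
    rw [mul_assoc, hrho, hk]
    ring
  have hk0u : C.k0 ≤ 5 / 2 := by
    by_contra hcon
    rw [not_le] at hcon
    nlinarith
  have hKpos : 0 < K := by linarith
  have hyl : 2 * K + 15 ≤ 5 * y := by
    have h3 : (K + 4) ^ 2 ≤ 5 / 2 * (K * y + 4) := by
      rw [← hk0]
      apply mul_le_mul_of_nonneg_right hk0u
      positivity
    have h4 : K * (2 * K + 15) ≤ K * (5 * y) := by nlinarith
    exact le_of_mul_le_mul_left h4 hKpos
  have hD : 2 * y ≤ K + 2 := by
    have h3 : (4 : ℝ) ≤ C.mu 2 L := by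
      refine le_mu (by omega) hL ?_
      intro H hH hLH
      have h4 : 2 ≤ C.b H := hbL ▸ b_mono hLH
      rcases val4_two hm hH h4 with h5 | h5
      · rw [h5, h]
      · rw [h5]
        linarith
    rw [PD.mu, hbL] at h3
    have h4 : 2 ≤ (C.k - 2) * C.rho 2 := by linarith
    have h5 := mul_le_mul_of_nonneg_right h4 hy0.le
    rw [hk2] at h5
    exact h5
  have hRy : y ≤ R := by
    have h3 : (R - y) * u = R - 1 := by
      rw [sub_mul, hy]
      ring
    by_contra hcon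
    rw [not_le] at hcon
    nlinarith
  by_cases hz : ∃ z ∈ C.out L, C.b (C.jn L z) = 3
  · obtain ⟨z, hz, h3⟩ := hz
    have e4 := eq_four hm h hn hL hbL (K := K) (y := y) rfl hy
    have ng := n1_ge hm h hL hbL hz h3
    have nz := n_zero hm h hb2
    have hR1 : 0 ≤ R - 1 := by linarith
    have V1 : (R - 1) * (R + 1 - u + (R - 1) / s) ≤
        (K + 2) * K - (s + 2) * R * (K + 2 - 2 * y) := by
      calc (R - 1) * (R + 1 - u + (R - 1) / s) ≤ (R - 1) * (n1 C L : ℝ) :=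
            mul_le_mul_of_nonneg_left ng hR1
        _ = (n1 C L : ℝ) * (R - 1) := by ring
        _ = _ := by
            rw [e4, hs]
            ring
    refine real4 (k0 := C.k0) (k1 := C.k1) (k2 := (C.k - 2) * C.rho 2) hs12 (by linarith) hK hK180
      hy hyl hD V1 hk0 hk1 hk2 ?_
    have e : C.a 3 = s + 4 := by
      rw [hs]
      ring
    rw [e] at nz
    linarith
  · have hz' : ∀ z ∈ C.out L, C.b (C.jn L z) = C.a 2 := by
      intro z hzL
      obtain ⟨hzB, hzn⟩ := mem_out.1 hzL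
      have hP : C.IsF 3 (C.jn L z) := hL.jn hzn
      have h3 := b_add_one_le (C := C) (sub_jn (C := C) L z) hzB (mem_jn (C := C) L z) hzn
      rw [hbL] at h3
      have h4 := hn _ hP
      rw [h] at h4 ⊢
      obtain ⟨n, hn'⟩ := b_nat hP
      have h5 : C.b (C.jn L z) ≠ 3 := fun h9 => hz ⟨z, hzL, h9⟩
      rw [hn'] at h3 h4 h5 ⊢
      have h6 : 3 ≤ n := by
        have : (3 : ℝ) ≤ n := by linarith
        exact_mod_cast this
      have h7 : n ≤ 4 := by exact_mod_cast h4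
      have h8 : n ≠ 3 := fun h9 => h5 (by rw [h9]; norm_num)
      have h9 : n = 4 := by omega
      rw [h9]
      norm_num
    have g : GdL C 2 L := ⟨hL, by rw [hbL, h]; norm_num, hz', fun H hH hLH =>
      val4_two hm hH (hbL ▸ b_mono hLH)⟩
    refine gl_false hm g (c := s / 2) (Or.inr ⟨h, rfl⟩) ?_ (by linarith) (by linarith) ?_ h1
    · rw [h, hs]
      ring
    · rw [← hu, ← hR]
      have : s / 2 * u = K / 2 := by
        rw [hK]
        ring
      rw [this]
      linarith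

end Pool.Agent.H92.PY
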