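import Pool.Agent.H92.PX.Asm
import Pool.Agent.H92.PY.Z3
import Pool.Agent.H92.PY.Z4

/-!
# ASM: rank `t + 4`
-/

open Set

namespace Pool.Agent.H92.PY

open Pool.Agent.H63 Pool.Agent.H63.PD Pool.Agent.H69.Pmd Pool.Agent.H92.PX

set_option linter.unusedSectionVars false

variable {α : Type*} [Fintype α] {C : PD α}

theorem asm3 (hm : C.m = 0) (h : C.a 2 = 3) (hwin : (C.a 3 - 3) * C.k0 < C.a 3 - 1) :
    False := by
  have hlow := low_one (C := C)
  have h3 := a_three (C := C)
  rw [h] at h3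
  have key : 4 ≤ C.K 1 → 4 ≤ C.K 2 → False := by
    intro h1 h2
    have hk : C.k0 ≤ 3 := by
      have e1 : 9 ≤ C.a 3 := by linarith
      nlinarith
    refine zero3 hm h h1 hwin fun G hG => ?_
    refine ngd_two (j := 2) (by norm_num) ?_ (Kge h2) (by rw [h]; linarith) le_rfl (by omega) hG
    intro i hi him
    have h4 := mul_le_next (C := C) (by rw [h]; linarith) (i := i) (by omega) (by omega)
    rw [h] at h4
    linarith
  rcases dv3 h with h1 | ⟨h1, h2⟩ | ⟨h1, h2⟩ | ⟨h1, h2⟩ | ⟨h1, h2⟩ | h1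
  · obtain ⟨e, j, hF⟩ := floc h h1
    obtain ⟨G, hG, hb⟩ := fch hF
    exact fbg hF hG hb
  · have hk : C.k0 < 4 := by
      rw [h3, h1] at hwin
      linarith
    exact ag3 h h1 h2 (j := 2) le_rfl (by omega) (by rw [h]; linarith) (by rw [h]; linarith)
  · exact key (by linarith) (by linarith)
  · exact key (by linarith) (by linarith)
  · exact key (by linarith) (by linarith)
  · exact key (by linarith) ((show (4 : ℝ) ≤ C.K 1 by linarith).trans
      (K_mono (by omega) (by omega)))

theorem asm4 (hm : C.m = 0) (h : C.a 2 = 4) (hwin : (C.a 3 - 4) * C.k0 < 2 * (C.a 3 - 1)) :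
    False := by
  have hlow := low_two (C := C) (by rw [h])
  have h3 := a_three (C := C)
  rw [h] at h3
  have hK1 := K_mono (C := C) (show 0 ≤ 1 by omega) (by omega)
  rw [K_zero, h] at hK1
  have hk : C.k0 < 5 := by
    have e1 : 13 ≤ C.a 3 := by linarith
    nlinarith
  have hn : ∀ i, 2 ≤ i → i + 1 ≤ C.m + 4 → ∀ G, C.IsF (i + 1) G → C.b G ≤ C.a i :=
    fun i hi him G hG => ngd_four (j := 2) (by rw [h]) le_rfl (by rw [h]; linarith) hi him hG
  rcases dv4 h with h1 | ⟨h1, h2⟩ | h1
  · obtain ⟨q, e, hq, g, e1, e2⟩ := geo_pg (C := C) (by rw [h]; norm_num) (by rw [h, h1])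
    have hq3 : q = 3 := by
      rw [h] at hq
      have : (q : ℝ) = 3 := by linarith
      exact_mod_cast this
    exact geo_mid g (by omega) (by omega) (j := 2) (by omega)
      (loc_pg g (by omega) e2 le_rfl (by omega) (by rw [h]; linarith) (by rw [h]; linarith))
      (hn 2 le_rfl (by omega))
  · obtain ⟨q, e, hq, g, e1, e2⟩ := geo_ag (C := C) (by rw [h]; norm_num)
      (by rw [h, h1]; norm_num) (by rw [h, h2]; norm_num)
    have hq4 : q = 4 := by
      rw [h] at hq
      exact_mod_cast hq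
    exact geo_mid g (by omega) (by omega) (j := 2) (by omega)
      (loc_ag g (by omega) e2 le_rfl (by omega) (by rw [h]; linarith) (by rw [h]; linarith)).1
      (hn 2 le_rfl (by omega))
  · refine zero4 hm h ?_ hK1 hlow hwin (fun G hG => hn 2 le_rfl (by omega) G hG)
    rcases h1 with ⟨a1, a2⟩ | ⟨a1, a2⟩ | a1
    · left
      exact ⟨by rw [h3, a1]; norm_num, a2⟩
    · right
      exact ⟨by rw [h3, a1]; norm_num, a2⟩
    · right
      exact ⟨by linarith, a1.trans (K_mono (by omega) (by omega))⟩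

/-- rank `t + 4` -/
theorem zero_all (hm : C.m = 0) (h3 : 3 ≤ C.a 2) : False := by
  refine main_all h3 ?_
  rintro ⟨hl | hl, -, hw⟩
  · rw [hl] at hw
    exact asm3 hm hl (by linarith)
  · rw [hl] at hw
    exact asm4 hm hl (by linarith)

end Pool.Agent.H92.PY
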