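import Mathlib

/-!
# DIO: a diophantine equation

Suppose `u ≥ s + 2`.  `d = 0` gives `u = s + 1`.  So `t = d + 1 ≥ 2`; put `p = s t - u + 1`,
`q = u² - (s+1) u t + (s+1) t² + u - s - (s+1) t`.  Then
(A) `s (t (p - 1) + 1) = t² + t (p - 2) + (p - 1)(p - 2) - q` (identity),
(B) `(u - 1)(t + p - 2 - s q) = s (s + 1)(t - 2)` (from `h`),
(C) `q (1 + s (u - 1)) = (s + 1)(t - 1)² + 1 - s² (t - 2) - p` (from (A), (B)).
-/

namespace Pool.Agent.H92.PY

/-- (P1) p ≥ 1 -/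
theorem Dio_P1 {s t u p q : ℤ} (hs : 6 ≤ s) (hu : s + 2 ≤ u) (ht : 2 ≤ t)
    (hp : p = s * t - u + 1)
    (hq : q = t ^ 2 + t * (p - 2) + (p - 1) * (p - 2) - s * (t * (p - 1) + 1))
    (D : q * (1 + s * (u - 1)) = (s + 1) * (t - 1) ^ 2 + 1 - s ^ 2 * (t - 2) - p) : 1 ≤ p := by
  have hu' : u - 1 = s * t - p := by rw [hp]; ring
  have hpos : 0 < 1 + s * (u - 1) := by nlinarith
  by_contra hcon
  have hp0 : p ≤ 0 := by omega
  have h1 : s * (t - 1) + 1 ≤ q := by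
    have e1 : 0 ≤ t * p * (1 - s) := by
      have : 0 ≤ (t * (-p)) * (s - 1) := mul_nonneg (mul_nonneg (by omega) (by omega)) (by omega)
      linarith
    have e2 : 0 ≤ p ^ 2 - 3 * p := by nlinarith
    have e3 : 1 ≤ t ^ 2 - 2 * t + 2 := by nlinarith
    rw [hq]
    linarith
  have h2 : 0 < q := by nlinarith
  -- left side large
  have h3 : (s * (t - 1) + 1) * (1 + s * (u - 1)) ≤ q * (1 + s * (u - 1)) :=
    mul_le_mul_of_nonneg_right h1 hpos.le
  rw [D] at h3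
  rw [hu'] at h3
  have h4 : 0 ≤ -p := by omega
  have e4 : (s * (t - 1) + 1) * (1 + s * (s * t - p)) =
      (s * (t - 1) + 1) * (1 + s ^ 2 * t) + (s * (t - 1) + 1) * s * (-p) := by ring
  rw [e4] at h3
  have e5 : (-p) ≤ (s * (t - 1) + 1) * s * (-p) := by
    have : 1 ≤ (s * (t - 1) + 1) * s := by nlinarith
    nlinarith
  have e6 : (s + 1) * (t - 1) ^ 2 + 1 < (s * (t - 1) + 1) * (1 + s ^ 2 * t) := by
    have e7 : (s * (t - 1)) * (s ^ 2 * t) ≤ (s * (t - 1) + 1) * (1 + s ^ 2 * t) - 1 := by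
      have : 0 ≤ s * (t - 1) := mul_nonneg (by omega) (by omega)
      have : 0 ≤ s ^ 2 * t := by positivity
      nlinarith
    have e8 : (s + 1) * (t - 1) ^ 2 < (s * (t - 1)) * (s ^ 2 * t) := by
      have a1 : 0 < t - 1 := by omega
      have a2 : (s + 1) * (t - 1) < s * (s ^ 2 * t) := by nlinarith [sq_nonneg s]
      calc (s + 1) * (t - 1) ^ 2 = (t - 1) * ((s + 1) * (t - 1)) := by ring
        _ < (t - 1) * (s * (s ^ 2 * t)) := mul_lt_mul_of_pos_left a2 a1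
        _ = _ := by ring
    linarith
  have e9 : 0 ≤ s ^ 2 * (t - 2) := mul_nonneg (sq_nonneg s) (by omega)
  linarith

/-- (P2) -/
theorem Dio_P2 {s t u p q : ℤ} (hs : 6 ≤ s) (hu : s + 2 ≤ u) (ht : 2 ≤ t) (hdu : 2 * (t - 1) ≤ u)
    (hp : p = s * t - u + 1)
    (hq : q = t ^ 2 + t * (p - 2) + (p - 1) * (p - 2) - s * (t * (p - 1) + 1))
    (D : q * (1 + s * (u - 1)) = (s + 1) * (t - 1) ^ 2 + 1 - s ^ 2 * (t - 2) - p) : 2 * p < t := by
  by_contra hcon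
  push Not at hcon
  have hu' : u - 1 = s * t - p := by rw [hp]; ring
  have h1 : p ≤ (s - 2) * t + 3 := by nlinarith
  have h2 : 0 ≤ (2 * p - t) * ((s - 2) * t + 3 - p) := mul_nonneg (by omega) (by omega)
  have hpt : 0 ≤ (2 * p - t) * t := mul_nonneg (by omega) (by omega)
  have htt : 0 ≤ t * (t - 2) := mul_nonneg (by omega) (by omega)
  have h3 : 4 * q ≤ - ((2 * s - 7) * (t * (t - 2))) + 4 * (2 - s) := by
    rw [hq]
    nlinarith
  have h4 : 0 ≤ (2 * s - 7) * (t * (t - 2)) := mul_nonneg (by omega) htt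
  have h5 : s * (s + 1) ≤ s * (u - 1) := mul_le_mul_of_nonneg_left (by omega) (by omega)
  -- - 4 q * (1 + s (u-1)) is large
  have h6 : ((2 * s - 7) * (t * (t - 2)) + 4 * (s - 2)) * (1 + s * (s + 1)) ≤
      (-4 * q) * (1 + s * (u - 1)) :=
    mul_le_mul (by linarith) (by linarith) (by nlinarith) (by linarith)
  have h7 : (-4 * q) * (1 + s * (u - 1)) =
      -4 * ((s + 1) * (t - 1) ^ 2 + 1 - s ^ 2 * (t - 2) - p) := by rw [← D]; ring
  rw [h7] at h6
  have h8 : p ≤ s * t := by omega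
  have h9 : 0 ≤ (s + 1) * (t - 1) ^ 2 := mul_nonneg (by omega) (sq_nonneg _)
  have h10 : ((2 * s - 7) * (t * (t - 2)) + 4 * (s - 2)) * (1 + s * (s + 1)) ≤
      4 * (s ^ 2 * (t - 2)) + 4 * (s * t) := by linarith
  have a1 : 10 * (t - 2) ≤ (2 * s - 7) * (t * (t - 2)) := by
    have : (2 * s - 7) * (t * (t - 2)) - 10 * (t - 2) = (t - 2) * ((2 * s - 7) * t - 10) := by ring
    have b1 : 0 ≤ (2 * s - 7) * t - 10 := by nlinarith
    nlinarith [mul_nonneg (show 0 ≤ t - 2 by omega) b1]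
  have a2 : (10 * (t - 2) + 4 * (s - 2)) * (1 + s * (s + 1)) ≤
      ((2 * s - 7) * (t * (t - 2)) + 4 * (s - 2)) * (1 + s * (s + 1)) :=
    mul_le_mul_of_nonneg_right (by linarith) (by nlinarith)
  have a3 : 4 * (s ^ 2 * (t - 2)) + 4 * (s * t) < (10 * (t - 2) + 4 * (s - 2)) * (1 + s * (s + 1)) := by
    have : (10 * (t - 2) + 4 * (s - 2)) * (1 + s * (s + 1)) - (4 * (s ^ 2 * (t - 2)) + 4 * (s * t)) =
      (t - 2) * (6 * s ^ 2 + 6 * s + 10) + (4 * (s - 2) * (1 + s * (s + 1)) - 8 * s) := by ring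
    have b1 : 0 ≤ (t - 2) * (6 * s ^ 2 + 6 * s + 10) := mul_nonneg (by omega) (by positivity)
    have b2 : 0 < 4 * (s - 2) * (1 + s * (s + 1)) - 8 * s := by nlinarith
    linarith
  linarith

/-- (P3) q ≥ 0 -/
theorem Dio_P3 {s t u p q : ℤ} (hs : 6 ≤ s) (hu : s + 2 ≤ u) (ht : 3 ≤ t)
    (hp : p = s * t - u + 1) (hpt : 2 * p < t)
    (D : q * (1 + s * (u - 1)) = (s + 1) * (t - 1) ^ 2 + 1 - s ^ 2 * (t - 2) - p) : 0 ≤ q := by
  by_contra hcon
  have hq1 : q ≤ -1 := by omega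
  have hu' : u - 1 = s * t - p := by rw [hp]; ring
  have hpos : 0 < 1 + s * (u - 1) := by nlinarith
  have h1 : q * (1 + s * (u - 1)) ≤ (-1) * (1 + s * (u - 1)) :=
    mul_le_mul_of_nonneg_right hq1 hpos.le
  rw [D, hu'] at h1
  -- (s+1)(t-1)^2 + 2 + 2 s^2 <= (s+1) p
  have h2 : (s + 1) * (t - 1) ^ 2 + 2 + 2 * s ^ 2 ≤ (s + 1) * p := by nlinarith
  have h3 : (s + 1) * (2 * p) ≤ (s + 1) * t := mul_le_mul_of_nonneg_left (by omega) (by omega)
  have h4 : (s + 1) * t ≤ (s + 1) * (2 * (t - 1) ^ 2) :=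
    mul_le_mul_of_nonneg_left (by nlinarith) (by omega)
  nlinarith [sq_nonneg s]

/-- (P4) no solution for 3 ≤ t ≤ s - 2 -/
theorem Dio_P4 {s t u p q : ℤ} (hs : 6 ≤ s) (hu : s + 2 ≤ u) (ht : 3 ≤ t) (ht2 : t ≤ s - 2)
    (hp1 : 1 ≤ p) (hq : 0 ≤ q)
    (D : q * (1 + s * (u - 1)) = (s + 1) * (t - 1) ^ 2 + 1 - s ^ 2 * (t - 2) - p) : False := by
  have hpos : 0 < 1 + s * (u - 1) := by nlinarith
  have h1 : 0 ≤ q * (1 + s * (u - 1)) := mul_nonneg hq hpos.le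
  rw [D] at h1
  have h2 : 0 ≤ (t - 3) * (s - 2 - t) := mul_nonneg (by omega) (by omega)
  have h3 : 0 ≤ (s + 1) * ((t - 3) * (s - 2 - t)) := mul_nonneg (by omega) h2
  have h4 : (s + 1) * (t - 1) ^ 2 + 1 - s ^ 2 * (t - 2) = - t - s ^ 2 + 4 * s + 8 -
    (s + 1) * ((t - 3) * (s - 2 - t)) := by ring
  nlinarith

/-- (P5) no solution for t = s - 1 -/
theorem Dio_P5 {s t u p q : ℤ} (hs : 6 ≤ s) (hu : s + 2 ≤ u) (ht : t = s - 1)
    (hp1 : 1 ≤ p) (hq : 0 ≤ q)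
    (A : s * (t * (p - 1) + 1) = t ^ 2 + t * (p - 2) + (p - 1) * (p - 2) - q)
    (D : q * (1 + s * (u - 1)) = (s + 1) * (t - 1) ^ 2 + 1 - s ^ 2 * (t - 2) - p) : False := by
  subst ht
  have h1 : q * (1 + s * (u - 1)) = 5 - p := by rw [D]; ring
  have hpos : 43 ≤ 1 + s * (u - 1) := by nlinarith
  have hq0 : q = 0 := by
    by_contra hne
    have hq1 : 1 ≤ q := by omega
    nlinarith
  rw [hq0, zero_mul] at h1
  have hp5 : p = 5 := by omega
  rw [hp5, hq0] at A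
  nlinarith

/-- (P6) no solution for s ≤ t ≤ 2 s - 1 -/
theorem Dio_P6 {s t u p q : ℤ} (hs : 6 ≤ s) (hu : s + 2 ≤ u) (ht : s ≤ t) (ht2 : t ≤ 2 * s - 1)
    (hp : p = s * t - u + 1) (hp1 : 1 ≤ p) (hpt : 2 * p < t) (hq : 0 ≤ q)
    (A : s * (t * (p - 1) + 1) = t ^ 2 + t * (p - 2) + (p - 1) * (p - 2) - q)
    (D : q * (1 + s * (u - 1)) = (s + 1) * (t - 1) ^ 2 + 1 - s ^ 2 * (t - 2) - p) : False := by
  have hu' : u - 1 = s * t - p := by rw [hp]; ring
  have hpos : 0 < 1 + s * (u - 1) := by nlinarith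
  -- W(t) > t
  have hW : t < (s + 1) * (t - 1) ^ 2 + 1 - s ^ 2 * (t - 2) := by
    have e1 : 0 ≤ (s + 1) * ((t - 1) * (t - s)) :=
      mul_nonneg (by omega) (mul_nonneg (by omega) (by omega))
    have e2 : (s + 1) * (t - 1) ^ 2 + 1 - s ^ 2 * (t - 2) - t =
      (s + 1) * ((t - 1) * (t - s)) + (s ^ 2 + 2 - 2 * t) := by ring
    nlinarith
  have hq0 : q ≠ 0 := by
    rintro rfl
    rw [zero_mul] at D
    omega
  have hq2 : q ≤ 1 := by
    by_contra hcon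
    have hq2 : 2 ≤ q := by omega
    have h1 : 2 * (1 + s * (u - 1)) ≤ q * (1 + s * (u - 1)) :=
      mul_le_mul_of_nonneg_right hq2 hpos.le
    rw [D, hu'] at h1
    have h2 : (2 * s - 1) * (2 * p) ≤ (2 * s - 1) * t :=
      mul_le_mul_of_nonneg_left (by omega) (by omega)
    have h3 : 0 ≤ (s + 1) * ((t - s) * (2 * s - 1 - t)) :=
      mul_nonneg (by omega) (mul_nonneg (by omega) (by omega))
    have h4 : 0 ≤ (2 * s - 7) * (2 * s - 1 - t) := mul_nonneg (by omega) (by omega)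
    nlinarith [sq_nonneg s, mul_nonneg (show (0:ℤ) ≤ s by omega) (sq_nonneg s)]
  have hq1 : q = 1 := by omega
  rw [hq1, one_mul, hu'] at D
  have hp2 : (s - 1) * p = (t - 1) * (2 * s ^ 2 - (s + 1) * (t - 1)) := by linarith
  rcases ht2.lt_or_eq with h5 | h5
  · -- t ≤ 2 s - 2
    have h6 : s + 3 ≤ 2 * s ^ 2 - (s + 1) * (t - 1) := by
      have : (s + 1) * (t - 1) ≤ (s + 1) * (2 * s - 3) :=
        mul_le_mul_of_nonneg_left (by omega) (by omega)
      nlinarith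
    have h7 : (t - 1) * (s + 3) ≤ (t - 1) * (2 * s ^ 2 - (s + 1) * (t - 1)) :=
      mul_le_mul_of_nonneg_left h6 (by omega)
    have h8 : (s - 1) * (2 * p) ≤ (s - 1) * t := mul_le_mul_of_nonneg_left (by omega) (by omega)
    nlinarith
  · subst h5
    have h6 : (s - 1) * p = (s - 1) * 4 := by rw [hp2]; ring
    have h7 : p = 4 := mul_left_cancel₀ (by omega) h6
    rw [h7, hq1] at A
    nlinarith

/-- (P7) no solution for t ≥ 2 s -/
theorem Dio_P7 {s t u p q : ℤ} (hs : 6 ≤ s) (hu : s + 2 ≤ u) (ht : 2 * s ≤ t)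
    (hp : p = s * t - u + 1) (hp1 : 1 ≤ p) (hpt : 2 * p < t) (hq : 0 ≤ q)
    (A : s * (t * (p - 1) + 1) = t ^ 2 + t * (p - 2) + (p - 1) * (p - 2) - q)
    (B : (u - 1) * (t + p - 2 - s * q) = s * (s + 1) * (t - 2)) : False := by
  have hu' : u - 1 = s * t - p := by rw [hp]; ring
  have hu1 : 0 < u - 1 := by omega
  have hB0 : 0 ≤ s * (s + 1) * (t - 2) := mul_nonneg (by positivity) (by omega)
  have hc0 : 0 ≤ t + p - 2 - s * q := by
    by_contra hcon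
    have : (u - 1) * (t + p - 2 - s * q) < 0 := mul_neg_of_pos_of_neg hu1 (by omega)
    omega
  have hp3 : 3 ≤ p := by
    by_contra hcon
    have : p = 1 ∨ p = 2 := by omega
    rcases this with rfl | rfl
    · have h1 : q = t ^ 2 - t - s := by linarith
      have h2 : t ≤ q := by rw [h1]; nlinarith
      nlinarith
    · have h1 : q = t ^ 2 - s * t - s := by linarith
      have h2 : t ≤ q := by rw [h1]; nlinarith
      nlinarith
  have hc1 : s + 1 ≤ t + p - 2 - s * q := by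
    by_contra hcon
    have h1 : (u - 1) * (t + p - 2 - s * q) ≤ (u - 1) * s :=
      mul_le_mul_of_nonneg_left (by omega) hu1.le
    rw [B, hu'] at h1
    have h2 : s * ((s + 1) * (t - 2)) ≤ s * (s * t - p) := by linarith
    have h3 := le_of_mul_le_mul_left h2 (by omega)
    nlinarith
  have hc2 : t + p - 2 - s * q ≤ s + 1 := by
    by_contra hcon
    have h1 : (u - 1) * (s + 2) ≤ (u - 1) * (t + p - 2 - s * q) :=
      mul_le_mul_of_nonneg_left (by omega) hu1.le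
    rw [B, hu'] at h1
    have h2 : (s + 2) * (2 * p) ≤ (s + 2) * t := mul_le_mul_of_nonneg_left (by omega) (by omega)
    nlinarith
  have hc : t + p - 2 - s * q = s + 1 := by omega
  rw [hc, hu'] at B
  have h1 : (s + 1) * p = (s + 1) * (2 * s) := by linarith
  have h2 : p = 2 * s := mul_left_cancel₀ (by omega) h1
  have h3 : s * q = t + s - 3 := by rw [h2] at hc; linarith
  have h4 : (t - 2) * (s * (t - 2 - 2 * s ^ 2 + 3 * s + 2) - 1) = s ^ 2 - s - 1 := by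
    have h5 : s * (s * (t * (p - 1) + 1)) = s * (t ^ 2 + t * (p - 2) + (p - 1) * (p - 2)) -
        (t + s - 3) := by rw [A, ← h3]; ring
    rw [h2] at h5
    linarith
  have h5 : 0 < (t - 2) * (s * (t - 2 - 2 * s ^ 2 + 3 * s + 2) - 1) := by rw [h4]; nlinarith
  have h6 : 0 < s * (t - 2 - 2 * s ^ 2 + 3 * s + 2) - 1 := by
    by_contra hcon
    have := mul_nonpos_of_nonneg_of_nonpos (show 0 ≤ t - 2 by omega) (not_lt.1 hcon)
    omega
  have h7 : 1 ≤ t - 2 - 2 * s ^ 2 + 3 * s + 2 := by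
    by_contra hcon
    have : s * (t - 2 - 2 * s ^ 2 + 3 * s + 2) ≤ 0 :=
      mul_nonpos_of_nonneg_of_nonpos (by omega) (by omega)
    omega
  have h8 : s - 1 ≤ s * (t - 2 - 2 * s ^ 2 + 3 * s + 2) - 1 := by nlinarith
  have h9 : (2 * s ^ 2 - 3 * s - 1) * (s - 1) ≤
      (t - 2) * (s * (t - 2 - 2 * s ^ 2 + 3 * s + 2) - 1) :=
    mul_le_mul (by omega) h8 (by omega) (by omega)
  rw [h4] at h9
  nlinarith

/-- the core: no solutions with `t ≥ 2`, `u ≥ s + 2` -/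
theorem Dio_core {s t u p q : ℤ} (hs : 6 ≤ s) (hu : s + 2 ≤ u) (ht : 2 ≤ t) (hdu : 2 * (t - 1) ≤ u)
    (hp : p = s * t - u + 1)
    (A : s * (t * (p - 1) + 1) = t ^ 2 + t * (p - 2) + (p - 1) * (p - 2) - q)
    (B : (u - 1) * (t + p - 2 - s * q) = s * (s + 1) * (t - 2))
    (D : q * (1 + s * (u - 1)) = (s + 1) * (t - 1) ^ 2 + 1 - s ^ 2 * (t - 2) - p) : False := by
  have hq : q = t ^ 2 + t * (p - 2) + (p - 1) * (p - 2) - s * (t * (p - 1) + 1) := by linarith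
  have hp1 := Dio_P1 hs hu ht hp hq D
  have hpt := Dio_P2 hs hu ht hdu hp hq D
  have ht3 : 3 ≤ t := by omega
  have hq0 := Dio_P3 hs hu ht3 hp hpt D
  rcases (show t ≤ s - 2 ∨ t = s - 1 ∨ (s ≤ t ∧ t ≤ 2 * s - 1) ∨ 2 * s ≤ t by omega) with
    h | h | h | h
  · exact Dio_P4 hs hu ht3 h hp1 hq0 D
  · exact Dio_P5 hs hu h hp1 hq0 A D
  · exact Dio_P6 hs hu h.1 h.2 hp hp1 hpt hq0 A D
  · exact Dio_P7 hs hu h hp hp1 hpt hq0 A B

theorem dio {s u d : ℤ} (hs : 6 ≤ s) (hu : s + 1 ≤ u) (hd : 0 ≤ d) (hdu : 2 * d ≤ u)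
    (h : (s + 1) * (1 + s * (u - d)) * (u + d * (u - 1)) = (s * u + 1) * u ^ 2) : u = s + 1 := by
  by_contra hne
  have hu2 : s + 2 ≤ u := by omega
  rcases hd.eq_or_lt with h0 | h0
  · subst h0
    have h1 : (s * u + 1) * u * (s + 1 - u) = 0 := by linarith
    have h2 : 0 < (s * u + 1) * u := by
      have : 0 < s * u := mul_pos (by omega) (by omega)
      exact mul_pos (by omega) (by omega)
    rcases mul_eq_zero.1 h1 with h3 | h3
    · omega
    · omega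
  · obtain ⟨t, rfl⟩ : ∃ t, d = t - 1 := ⟨d + 1, by ring⟩
    refine Dio_core (s := s) (t := t) (u := u) (p := s * t - u + 1)
      (q := u ^ 2 - (s + 1) * u * t + (s + 1) * t ^ 2 + u - s - (s + 1) * t)
      hs hu2 (by omega) (by omega) rfl (by ring) ?_ ?_
    · linear_combination h
    · linear_combination (-1) * h

end Pool.Agent.H92.PY
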