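import Pool.Agent.H92.PY.Ba0

/-!
# GLD: good lines (definition), proved
-/

open Set

namespace Pool.Agent.H92.PY

open Pool.Agent.H63 Pool.Agent.H63.PD Pool.Agent.H69.Pmd Pool.Agent.H92.PX

set_option linter.unusedSectionVars false

variable {α : Type*} [Fintype α]

/-- a good line: `b L = l - w`, every plane spanned by `L` and a further point of `B` has exactly `l` points
of `B`, every hyperplane through `L` has `l` or `μ` points of `B` -/
structure GdL (C : PD α) (w : ℝ) (L : Set α) : Prop where
  flat : C.IsF 2 L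
  bL : C.b L = C.a 2 - w
  pl : ∀ y ∈ C.out L, C.b (C.jn L y) = C.a 2
  hy : ∀ H, C.IsF (C.m + 4) H → L ⊆ H → C.b H = C.a 2 ∨ C.b H = C.a 3

variable {C : PD α}

/-- in rank `t + 4` every hyperplane has `0`, `1`, `l` or `μ` points of `B` -/
theorem val4 (hm : C.m = 0) {H : Set α} (hH : C.IsF (C.m + 4) H) :
    C.b H = 0 ∨ C.b H = 1 ∨ C.b H = C.a 2 ∨ C.b H = C.a 3 := by
  obtain ⟨i, hi, hb⟩ := exists_val hH
  rw [hm] at hi
  rw [hb]
  interval_cases i
  · exact Or.inl C.a_zero
  · exact Or.inr (Or.inl C.a_one)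
  · exact Or.inr (Or.inr (Or.inl rfl))
  · exact Or.inr (Or.inr (Or.inr rfl))

/-- hyperplanes with at least two points of `B` -/
theorem val4_two (hm : C.m = 0) {H : Set α} (hH : C.IsF (C.m + 4) H) (h : 2 ≤ C.b H) :
    C.b H = C.a 2 ∨ C.b H = C.a 3 := by
  rcases val4 hm hH with h1 | h1 | h1 | h1
  · linarith
  · linarith
  · exact Or.inl h1
  · exact Or.inr h1

/-- number of points `y` of `B` outside `L` for which the plane `jn L y` has exactly three points of `B` -/
noncomputable def n1 (C : PD α) (L : Set α) : ℕ :=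
  ((C.out L).filter (fun y => C.b (C.jn L y) = 3)).card

end Pool.Agent.H92.PY
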