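import Pool.Agent.H92.PX.Div

/-!
# GDV: a divisibility contradiction

`div_count` (PX/Div): `W K1 = (1 + K2 (K1 - 1)) K2`, with `K1, K2` natural numbers (`K_nat`).  So over the integers
`K1 (K2² - W) = K2² - K2`.  If `K2 = 2 K1 - 1`: `K2² - K2 = 4 K1² - 6 K1 + 2`, so `K1` divides `2`.  If
`2 K2 = 3 K1 - 1`: `4 (K2² - K2) = 9 K1² - 12 K1 + 3`, so `K1` divides `3`.  Both contradict `K1 ≥ 4`.
-/

open Set

namespace Pool.Agent.H92.PY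

open Pool.Agent.H63 Pool.Agent.H63.PD Pool.Agent.H69.Pmd Pool.Agent.H92.PX

set_option linter.unusedSectionVars false

variable {α : Type*} [Fintype α] {C : PD α}

theorem no_div (h : C.K 2 = 2 * C.K 1 - 1 ∨ 2 * C.K 2 = 3 * C.K 1 - 1) (h4 : 4 ≤ C.K 1) :
    False := by
  obtain ⟨W, N, hW, -⟩ := div_count (C := C)
  obtain ⟨n1, h1⟩ := K_nat (C := C) (i := 1) (by omega)
  obtain ⟨n2, h2⟩ := K_nat (C := C) (i := 2) (by omega)
  rw [h1, h2] at hW h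
  rw [h1] at h4
  have h4' : 4 ≤ n1 := by exact_mod_cast h4
  have hW' : ((W : ℤ) : ℝ) * ((n1 : ℤ) : ℝ) =
      (1 + ((n2 : ℤ) : ℝ) * (((n1 : ℤ) : ℝ) - 1)) * ((n2 : ℤ) : ℝ) := by exact_mod_cast hW
  have hWz : (W : ℤ) * n1 = (1 + (n2 : ℤ) * ((n1 : ℤ) - 1)) * n2 := by exact_mod_cast hW'
  rcases h with h | h
  · have h' : ((n2 : ℤ) : ℝ) = 2 * ((n1 : ℤ) : ℝ) - 1 := by exact_mod_cast h
    have hz : (n2 : ℤ) = 2 * n1 - 1 := by exact_mod_cast h'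
    have hd : (n1 : ℤ) ∣ 2 := by
      refine ⟨(n2 : ℤ) ^ 2 - W - 4 * n1 + 6, ?_⟩
      rw [hz] at hWz ⊢
      linear_combination hWz
    have := Int.le_of_dvd (by norm_num) hd
    omega
  · have h' : 2 * ((n2 : ℤ) : ℝ) = 3 * ((n1 : ℤ) : ℝ) - 1 := by exact_mod_cast h
    have hz : 2 * (n2 : ℤ) = 3 * n1 - 1 := by exact_mod_cast h'
    have hd : (n1 : ℤ) ∣ 3 := by
      refine ⟨4 * ((n2 : ℤ) ^ 2 - W) - 9 * n1 + 12, ?_⟩
      have e1 : (n1 : ℤ) * (4 * ((n2 : ℤ) ^ 2 - W)) = (2 * (n2 : ℤ)) ^ 2 - 2 * (2 * (n2 : ℤ)) := by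
        linear_combination (-4) * hWz
      rw [hz] at e1
      linear_combination (-1) * e1
    have := Int.le_of_dvd (by norm_num) hd
    omega

end Pool.Agent.H92.PY
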