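import Pool.Agent.H92.PY.GLd

/-!
# GEQ: the equation of a good line

Notation: `l = a 2`, `μ = a 3`, `s = μ - l = c w`, `u = K 2`, `R = K 3`, `β = b L = l - w`, `k = l + s u` (`k_eq`), so
`k - β = s u + w = w (c u + 1)`, `k - l = s u = w c u`, `μ - β = s + w = w (c + 1)`.
`line_mom g.flat (C.a 2)`: `E L ((x - β)(x - l)) = rho 2 * ∑_{y ∈ out L} (b P_y - l + (k - b P_y) rho 3)`
`= rho 2 (k - β)(k - l) rho 3` (`g.pl`, `card_out`).  On the other hand (`E_congr` with `g.hy`)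
`(x - β)(x - l) = (μ - β)(x - l)` for `x ∈ {l, μ}`, so the left side is `(μ - β) E L (x - l)`
`= (μ - β)(β - l + (k - β) rho 2)` (`E_mul`, `line_mean`).  Hence
`w (c+1) (w (c u + 1) rho 2 - w) = rho 2 * w (c u + 1) * w c u * rho 3`; divide by `w²`:
`(c + 1)((c u + 1) rho 2 - 1) = (c u + 1) c u rho 2 rho 3`.  Multiply by `R (1 + R (u - 1))` and use `rho2_mul`,
`rho3_mul`.
-/

open Set

namespace Pool.Agent.H92.PY

open Pool.Agent.H63 Pool.Agent.H63.PD Pool.Agent.H69.Pmd Pool.Agent.H92.PX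

set_option linter.unusedSectionVars false

variable {α : Type*} [Fintype α] {C : PD α}

theorem gl_eq (hm : C.m = 0) {w c : ℝ} {L : Set α} (g : GdL C w L) (hw : 0 < w)
    (hc : c * w = C.a 3 - C.a 2) :
    (c + 1) * C.K 3 * ((c * C.K 2 + 1) * C.K 2 - 1 - C.K 3 * (C.K 2 - 1)) =
      (c * C.K 2 + 1) * c * C.K 2 ^ 2 := by
  have h1 := line_mom (C := C) g.flat (C.a 2)
  have h2 : C.E L (fun x => (x - C.b L) * (x - C.a 2)) =
      C.E L (fun x => (C.a 3 - C.b L) * (x - C.a 2)) := by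
    apply E_congr g.flat.base
    intro H hH hLH
    rcases g.hy H hH hLH with h | h
    · rw [h]; ring
    · rw [h]
  rw [h2, E_mul, line_mean g.flat] at h1
  have h3 : ∑ y ∈ C.out L, (C.b (C.jn L y) - C.a 2 + (C.k - C.b (C.jn L y)) * C.rho 3) =
      (C.k - C.b L) * ((C.k - C.a 2) * C.rho 3) := by
    have : ∀ y ∈ C.out L, (C.b (C.jn L y) - C.a 2 + (C.k - C.b (C.jn L y)) * C.rho 3) =
        (C.k - C.a 2) * C.rho 3 := by
      intro y hy
      rw [g.pl y hy]; ring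
    rw [Finset.sum_congr rfl this, Finset.sum_const, nsmul_eq_mul, card_out]
  rw [h3, g.bL, k_eq hm, ← hc] at h1
  have hr2 := rho2_mul hm
  have hr3 := rho3_mul hm
  have hs : C.a 3 = C.a 2 + c * w := by linarith
  rw [hs] at h1
  -- h1 : divide by w ^ 2
  have h4 : w ^ 2 * ((c + 1) * ((c * C.K 2 + 1) * C.rho 2 - 1)) =
      w ^ 2 * ((c * C.K 2 + 1) * (c * C.K 2) * C.rho 2 * C.rho 3) := by
    linear_combination h1
  have h5 := mul_left_cancel₀ (pow_pos hw 2).ne' h4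
  have h6 := congrArg (fun x => x * (C.K 3 * (1 + C.K 3 * (C.K 2 - 1)))) h5
  have e1 : (c + 1) * ((c * C.K 2 + 1) * C.rho 2 - 1) * (C.K 3 * (1 + C.K 3 * (C.K 2 - 1))) =
      (c + 1) * C.K 3 * ((c * C.K 2 + 1) * (C.rho 2 * (1 + C.K 3 * (C.K 2 - 1))) -
        (1 + C.K 3 * (C.K 2 - 1))) := by ring
  have e2 : (c * C.K 2 + 1) * (c * C.K 2) * C.rho 2 * C.rho 3 *
      (C.K 3 * (1 + C.K 3 * (C.K 2 - 1))) = (c * C.K 2 + 1) * (c * C.K 2) *
        (C.rho 2 * (1 + C.K 3 * (C.K 2 - 1))) * (C.rho 3 * C.K 3) := by ring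
  rw [e1, e2, hr2, hr3] at h6
  linear_combination h6

end Pool.Agent.H92.PY
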