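import Pool.Agent.H92.PY.GLd

/-!
# GN: the number of `B`-planes through a good line in a big hyperplane

Notation as in `Geq`.  `β = b L = l - w`, `s = μ - l = c w`.
Pick `y ∈ out L` (`out_nonempty`), `P = jn L y` (`IsF 3`, `b P = l`), `z ∈ out P`, `H = jn P z` (`IsF 4`, recall
`m = 0`): `b H ≥ b P + 1 > l` (`b_add_one_le`), so `b H = μ` by `g.hy`.
Let `𝓕` be the set of the planes `Q` (`IsF 3`) with `L ⊆ Q ⊆ H` and `b Q = l`; `𝓕 ⊆ covers C.M L H`
(`Div_cov` of `PX/Div.lean`), `N = |𝓕| ≤ |covers C.M L H| = K 2` (`Siz_K` with `i = 2`).  The points of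
`B ∩ H \ L` (there are `μ - β = s + w` of them) are partitioned by the sets `B ∩ Q \ L`, `Q ∈ 𝓕` (`w` points
each): `y' ∈ B ∩ H \ L` is in `Q = jn L y' ∈ 𝓕` and in no other plane of `𝓕` (`IsF.eq_jn`).  So `N w = s + w
= (c + 1) w`.  (Use `Finset.card_eq_sum_card_fiberwise` or `Finset.sum_card_bipartite...` on
`S = (out L).filter (· ∈ H)`, fibres of `y' ↦ jn L y'`.)
-/

open Set

namespace Pool.Agent.H92.PY

open Pool.Agent.H63 Pool.Agent.H63.PD Pool.Agent.H69.Pmd Pool.Agent.H92.PX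

set_option linter.unusedSectionVars false

variable {α : Type*} [Fintype α] {C : PD α}

open Classical in
theorem Gn_card {L G : Set α} (h : L ⊆ G) :
    (((C.out L).filter (fun z => z ∈ G)).card : ℝ) = C.b G - C.b L := by
  have h1 : (((C.out L).filter (fun z => z ∈ G) : Finset α) : Set α) = (C.B ∩ G) \ L := by
    ext z
    simp only [Finset.coe_filter, mem_out, Set.mem_setOf_eq, Set.mem_sdiff, Set.mem_inter_iff]
    tauto
  have h2 := Set.ncard_inter_add_ncard_sdiff_eq_ncard (C.B ∩ G) L (Set.toFinite _)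
  have h3 : C.B ∩ G ∩ L = C.B ∩ L := by
    ext z
    constructor
    · rintro ⟨⟨a1, _⟩, a3⟩
      exact ⟨a1, a3⟩
    · rintro ⟨a1, a2⟩
      exact ⟨⟨a1, h a2⟩, a2⟩
  rw [h3, ← h1, Set.ncard_coe_finset] at h2
  have h4 : ((C.B ∩ L).ncard : ℝ) + ((C.out L).filter (fun z => z ∈ G)).card =
      (C.B ∩ G).ncard := by exact_mod_cast h2
  simp only [PD.b]
  linarith

theorem gl_n (hm : C.m = 0) {w c : ℝ} {L : Set α} (g : GdL C w L) (hw : 0 < w)
    (hc : c * w = C.a 3 - C.a 2) : ∃ N : ℕ, (N : ℝ) = c + 1 ∧ (N : ℝ) ≤ C.K 2 := by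
  classical
  have hL := g.flat
  obtain ⟨y, hy⟩ := out_nonempty hL (by omega)
  have hP : C.IsF 3 (C.jn L y) := hL.jn (mem_out.1 hy).2
  obtain ⟨z, hz⟩ := out_nonempty hP (by omega)
  have hH : C.IsF 4 (C.jn (C.jn L y) z) := hP.jn (mem_out.1 hz).2
  set H := C.jn (C.jn L y) z with hHdef
  have hPH : C.jn L y ⊆ H := sub_jn _ z
  have hLH : L ⊆ H := (sub_jn L y).trans hPH
  have hbH : C.b H = C.a 3 := by
    have h1 : C.b (C.jn L y) + 1 ≤ C.b H :=
      b_add_one_le hPH (mem_out.1 hz).1 (mem_jn _ z) (mem_out.1 hz).2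
    rw [g.pl y hy] at h1
    rcases g.hy H (by rw [hm]; exact hH) hLH with h2 | h2
    · linarith
    · exact h2
  refine ⟨((covers C.M L H).filter (fun Q => C.b Q = C.a 2)).card, ?_, ?_⟩
  · have h1 : ∀ x ∈ (C.out L).filter (fun x => x ∈ H),
        C.jn L x ∈ (covers C.M L H).filter (fun Q => C.b Q = C.a 2) := by
      intro x hx
      rw [Finset.mem_filter] at hx
      rw [Finset.mem_filter]
      refine ⟨(Div_cov hL _).2 ⟨hL.jn (mem_out.1 hx.1).2, sub_jn L x, jn_subset hH hLH hx.2⟩, ?_⟩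
      exact g.pl x hx.1
    have h2 := Finset.card_eq_sum_card_fiberwise h1
    have h3 : ∀ Q ∈ (covers C.M L H).filter (fun Q => C.b Q = C.a 2),
        ((((C.out L).filter (fun x => x ∈ H)).filter (fun x => C.jn L x = Q)).card : ℝ) = w := by
      intro Q hQ
      rw [Finset.mem_filter] at hQ
      obtain ⟨hQ1, hQ2⟩ := hQ
      obtain ⟨hQ3, hQ4, hQ5⟩ := (Div_cov hL Q).1 hQ1
      have h4 : ((C.out L).filter (fun x => x ∈ H)).filter (fun x => C.jn L x = Q) =
          (C.out L).filter (fun x => x ∈ Q) := by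
        ext x
        rw [Finset.mem_filter, Finset.mem_filter, Finset.mem_filter]
        constructor
        · rintro ⟨⟨a1, _⟩, a3⟩
          refine ⟨a1, ?_⟩
          rw [← a3]
          exact mem_jn L x
        · rintro ⟨a1, a2⟩
          exact ⟨⟨a1, hQ5 a2⟩, hL.eq_jn hQ3 hQ4 a2 (mem_out.1 a1).2⟩
      rw [h4, Gn_card hQ4, hQ2, g.bL]
      ring
    have h5 : (((C.out L).filter (fun x => x ∈ H)).card : ℝ) =
        (((covers C.M L H).filter (fun Q => C.b Q = C.a 2)).card : ℝ) * w := by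
      rw [h2, Nat.cast_sum, Finset.sum_congr rfl h3, Finset.sum_const, nsmul_eq_mul]
    rw [Gn_card hLH, hbH, g.bL] at h5
    have h6 : (((covers C.M L H).filter (fun Q => C.b Q = C.a 2)).card : ℝ) * w = (c + 1) * w := by
      linarith
    exact mul_right_cancel₀ hw.ne' h6
  · rw [Siz_K (i := 2) (by omega) hL.1 hH.1 hL.2.1 hH.2.1 hLH]
    exact_mod_cast Finset.card_filter_le _ _

end Pool.Agent.H92.PY
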