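import Pool.Agent.H92.PY.GLd

/-!
# GX: planes through a good line without further points of `B`

Notation as in `Geq`.  `β = b L = l - w`.
(1) Some hyperplane `H ⊇ L` has `b H = l`: otherwise all have `b H = μ` (`g.hy`), so `E L (x) = μ` (`E_congr`,
`E_const`), but `E L (x) = β + (k - β) rho 2 ≤ β + k0` (`E_id`, `kap_le`) `< l - w + (μ - l + w) = μ`.
(2) `b H = l > β = b L`, so there is `y ∈ B ∩ H`, `y ∉ L` (otherwise `B ∩ H ⊆ L`, `b H ≤ b L`, compare the
definition of `b`; `b_mono` style argument), i.e. `y ∈ out L`; `P = jn L y ⊆ H` (`jn_subset`, `IsF 3`), `b P = l`.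
(3) `P ≠ H` (ranks 3 and 4: `IsF.rank_le`), pick `z ∈ H \ P`, `P' = jn L z ⊆ H`, `IsF 3 P'` (`z ∉ L ⊆ P`),
`P' ≠ P`, `P ∩ P' = L` (`IsF.inter_eq`), `b P + b P' ≤ b H + b L` (`b_union_le`), so `b P' ≤ β`, and `b P' ≥ β`
(`b_mono`): `b P' = β`.
(4) `sum_above_three hm` for `P'`: `∑ (b H - β) = k - β = s u + w`, sum over the `R` (`card_above_three`)
hyperplanes `H ⊇ P' ⊇ L`; each has `b H ∈ {l, μ}`, i.e. `b H - β ∈ {w, w + s}`.  If `x` is the number of those with
`b H = μ` (card of the filter; `C.b H = if .. then ..`, `Finset.sum_ite` or write `b H - β = w + s * indicator`),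
then `R w + x s = s u + w`, so `w (R - 1) = s (u - x) = w c (u - x)`.
-/

open Set

namespace Pool.Agent.H92.PY

open Pool.Agent.H63 Pool.Agent.H63.PD Pool.Agent.H69.Pmd Pool.Agent.H92.PX

set_option linter.unusedSectionVars false

variable {α : Type*} [Fintype α] {C : PD α}

/-- a point of `B` in a set with more points of `B` -/
theorem Gx_mem {L H : Set α} (h : C.b L < C.b H) : ∃ y, y ∈ C.B ∧ y ∈ H ∧ y ∉ L := by
  by_contra hcon
  push Not at hcon
  have h1 : C.B ∩ H ⊆ C.B ∩ L := fun y hy => ⟨hy.1, hcon y hy.1 hy.2⟩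
  have h2 := Set.ncard_le_ncard h1 (Set.toFinite _)
  have h3 : ((C.B ∩ H).ncard : ℝ) ≤ (C.B ∩ L).ncard := by exact_mod_cast h2
  simp only [PD.b] at h
  linarith

theorem Gx_hyp {w : ℝ} {L : Set α} (g : GdL C w L)
    (hk : C.k0 < C.a 3 - C.a 2 + w) : ∃ H, C.IsF (C.m + 4) H ∧ L ⊆ H ∧ C.b H = C.a 2 := by
  by_contra hcon
  push Not at hcon
  have h1 : C.E L (fun x => x) = C.E L (fun _ => C.a 3) := by
    apply E_congr g.flat.base
    intro H hH hLH
    rcases g.hy H hH hLH with h | h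
    · exact absurd h (hcon H hH hLH)
    · exact h
  rw [E_const g.flat (by omega), E_id (by omega) g.flat] at h1
  have h2 := kap_le (C := C) (i := 2) (by omega) g.flat
  have h3 := g.bL
  linarith

/-- a plane through `L` without further points of `B`, inside a hyperplane -/
theorem Gx_plane (hm : C.m = 0) {w : ℝ} {L : Set α} (g : GdL C w L) (hw : 0 < w)
    (hk : C.k0 < C.a 3 - C.a 2 + w) : ∃ P, C.IsF 3 P ∧ L ⊆ P ∧ C.b P = C.b L := by
  obtain ⟨H, hH, hLH, hb⟩ := Gx_hyp g hk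
  have hβ := g.bL
  obtain ⟨y, hyB, hyH, hyL⟩ := Gx_mem (C := C) (L := L) (H := H) (by linarith)
  have hP : C.IsF 3 (C.jn L y) := g.flat.jn hyL
  have hbP := g.pl y (mem_out.2 ⟨hyB, hyL⟩)
  have hPH : C.jn L y ⊆ H := jn_subset hH hLH hyH
  have hne : ¬ H ⊆ C.jn L y := by
    intro h
    have := hH.rank_le hP h
    omega
  obtain ⟨z, hzH, hzP⟩ := not_subset.1 hne
  have hzL : z ∉ L := fun h => hzP (sub_jn L y h)
  have hP' : C.IsF 3 (C.jn L z) := g.flat.jn hzL
  have hP'H : C.jn L z ⊆ H := jn_subset hH hLH hzH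
  have hne' : C.jn L y ≠ C.jn L z := by
    intro h
    apply hzP
    rw [h]
    exact mem_jn L z
  have hint := g.flat.inter_eq hP hP' (sub_jn L y) (sub_jn L z) hne'
  have h1 := b_union_le (C := C) hPH hP'H hint.subset
  have h2 : C.b L ≤ C.b (C.jn L z) := b_mono (sub_jn L z)
  exact ⟨C.jn L z, hP', sub_jn L z, by linarith⟩

theorem gl_x (hm : C.m = 0) {w c : ℝ} {L : Set α} (g : GdL C w L) (hw : 0 < w)
    (hk : C.k0 < C.a 3 - C.a 2 + w) (hc : c * w = C.a 3 - C.a 2) :
    ∃ x : ℕ, C.K 3 - 1 = c * (C.K 2 - x) := by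
  classical
  obtain ⟨P, hP, hLP, hb⟩ := Gx_plane hm g hw hk
  have h1 := sum_above_three hm hP
  have h2 := card_above_three hm hP
  have hk' := k_eq (C := C) hm
  have hβ := g.bL
  refine ⟨((above C.M P (C.τ + C.m + 4)).filter (fun H => C.b H = C.a 3)).card, ?_⟩
  have hs := s_pos (C := C)
  have h3 : ∀ H ∈ above C.M P (C.τ + C.m + 4), C.b H - C.b P =
      w + (C.a 3 - C.a 2) * (if C.b H = C.a 3 then 1 else 0) := by
    intro H hH
    obtain ⟨h4, h5⟩ := (mem_above' hP.base).1 hH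
    by_cases h6 : C.b H = C.a 3
    · rw [if_pos h6]
      linarith
    · rw [if_neg h6]
      rcases g.hy H h4 (hLP.trans h5) with h7 | h7
      · linarith
      · exact absurd h7 h6
  rw [Finset.sum_congr rfl h3, Finset.sum_add_distrib, Finset.sum_const, nsmul_eq_mul, h2,
    ← Finset.mul_sum, Finset.sum_boole] at h1
  set x : ℝ := (((above C.M P (C.τ + C.m + 4)).filter (fun H => C.b H = C.a 3)).card : ℝ)
    with hx
  have h4 : w * (C.K 3 - 1) = w * (c * (C.K 2 - x)) := by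
    rw [hk', hb, hβ, ← hc] at h1
    linarith
  exact mul_left_cancel₀ hw.ne' h4

end Pool.Agent.H92.PY
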