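import Pool.Agent.H92.PY.Geq
import Pool.Agent.H92.PY.Gx
import Pool.Agent.H92.PY.Gn
import Pool.Agent.H92.PY.Gdv
import Pool.Agent.H92.PY.Dio

/-!
# GFL: there are no good lines

Notation as in `Geq`: `u = K 2`, `R = K 3`.  `gl_n`: `c + 1 = N` is a natural number and `c + 1 ≤ u`.  `gl_x` (`k0 ≤ 3
< c w + w`): `R - 1 = c (u - x)`, `x` natural; `u`, `R` are natural numbers (`K_nat`).  `2 x ≤ u`: from
`3 c u ≤ 4 R`: `c x = c u - R + 1 ≤ c u / 4 + 1`, so `x ≤ u / 4 + 1 / 6 ≤ u / 2` (`u ≥ c + 1 ≥ 7`).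
`gl_eq`: as `(c u + 1) u - 1 - R (u - 1) = c (u + x (u - 1))`, dividing by `c`:
`(c + 1)(1 + c (u - x))(u + x (u - 1)) = (c u + 1) u²`; all numbers are integers, so `dio` with `s = c`, `d = x` gives
`u = c + 1`.  Now `a 3 = 1 + K 1 (a 2 - 1)` (`a_three` in `H63/PD/Siz.lean`).  If `a 2 = 3`, `w = 1`:
`c = a 3 - 3 = 2 K1 - 2`, `u = 2 K1 - 1`; if `a 2 = 4`, `w = 2`: `2 c = a 3 - 4 = 3 K1 - 3`, `2 u = 3 K1 - 1`.
`no_div`.
-/

open Set

namespace Pool.Agent.H92.PY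

open Pool.Agent.H63 Pool.Agent.H63.PD Pool.Agent.H69.Pmd Pool.Agent.H92.PX

set_option linter.unusedSectionVars false

variable {α : Type*} [Fintype α] {C : PD α}

theorem gl_false (hm : C.m = 0) {w c : ℝ} {L : Set α} (g : GdL C w L)
    (h : (C.a 2 = 3 ∧ w = 1) ∨ (C.a 2 = 4 ∧ w = 2)) (hc : c * w = C.a 3 - C.a 2) (hc6 : 6 ≤ c)
    (hk : C.k0 ≤ 3) (hR : 3 * (c * C.K 2) ≤ 4 * C.K 3) (h1 : 4 ≤ C.K 1) : False := by
  have hw : 0 < w := by rcases h with ⟨-, h⟩ | ⟨-, h⟩ <;> rw [h] <;> norm_num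
  have hw1 : 1 ≤ w := by rcases h with ⟨-, h⟩ | ⟨-, h⟩ <;> rw [h] <;> norm_num
  obtain ⟨N, hN, hNu⟩ := gl_n hm g hw hc
  have hcw : 6 ≤ c * w := by nlinarith
  obtain ⟨x, hx⟩ := gl_x hm g hw (by rw [← hc]; linarith) hc
  obtain ⟨u, hu⟩ := K_nat (C := C) (i := 2) (by omega)
  obtain ⟨R, hRn⟩ := K_nat (C := C) (i := 3) (by omega)
  have heq := gl_eq hm g hw hc
  have hc' : c = ((N : ℤ) - 1 : ℤ) := by push_cast; linarith
  rw [hN, hu] at hNu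
  rw [hu] at hx hR heq
  rw [hRn] at hx hR heq
  have hcx : c * x = c * u - R + 1 := by linarith
  -- 2 x ≤ u
  have hxu : 2 * (x : ℝ) ≤ u := by
    by_contra hcon
    push Not at hcon
    have e1 : c * u < c * (2 * x) := mul_lt_mul_of_pos_left hcon (by linarith)
    have e2 : 6 * (u : ℝ) ≤ c * u := mul_le_mul_of_nonneg_right hc6 (by positivity)
    nlinarith
  have hR' : (R : ℝ) = 1 + c * (u - x) := by linarith
  -- the equation
  have hE : c * ((c + 1) * (1 + c * (u - x)) * (u + x * (u - 1))) = c * ((c * u + 1) * (u : ℝ) ^ 2) := by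
    rw [hR'] at heq
    linear_combination heq
  have hE' := mul_left_cancel₀ (by linarith : c ≠ 0) hE
  rw [hc'] at hE' hc6 hNu
  have z1 : (((N : ℤ) - 1 : ℤ) + 1) * (1 + ((N : ℤ) - 1) * ((u : ℤ) - x)) * ((u : ℤ) + x * ((u : ℤ) - 1)) =
      (((N : ℤ) - 1) * u + 1) * (u : ℤ) ^ 2 := by
    have := hE'
    push_cast at this
    have h2 : (((((N : ℤ) - 1 : ℤ) + 1) * (1 + ((N : ℤ) - 1) * ((u : ℤ) - x)) *
        ((u : ℤ) + x * ((u : ℤ) - 1)) : ℤ) : ℝ) = (((((N : ℤ) - 1) * u + 1) * (u : ℤ) ^ 2 : ℤ) : ℝ) := by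
      push_cast
      linarith
    exact_mod_cast h2
  have z2 : (6 : ℤ) ≤ (N : ℤ) - 1 := by exact_mod_cast hc6
  have z3 : ((N : ℤ) - 1) + 1 ≤ (u : ℤ) := by
    have : ((((N : ℤ) - 1) + 1 : ℤ) : ℝ) ≤ ((u : ℤ) : ℝ) := by push_cast at hNu ⊢; linarith
    exact_mod_cast this
  have z4 : 2 * (x : ℤ) ≤ u := by
    have : ((2 * (x : ℤ) : ℤ) : ℝ) ≤ ((u : ℤ) : ℝ) := by push_cast; linarith
    exact_mod_cast this
  have z5 := dio (s := (N : ℤ) - 1) (u := u) (d := x) z2 z3 (by positivity) z4 z1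
  have hu1 : C.K 2 = c + 1 := by
    rw [hu, hc']
    have : ((u : ℤ) : ℝ) = ((((N : ℤ) - 1) + 1 : ℤ) : ℝ) := by rw [← z5]
    push_cast at this ⊢
    linarith
  have h3 := a_three (C := C)
  apply no_div (C := C) _ h1
  rcases h with ⟨ha, hw'⟩ | ⟨ha, hw'⟩
  · left
    rw [ha, hw'] at hc
    rw [ha] at h3
    linarith
  · right
    rw [ha, hw'] at hc
    rw [ha] at h3
    linarith

end Pool.Agent.H92.PY
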